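import Pool.Agent.SFree.Asym

/-!
# From the sets for the parameters `D` to all `n`, third version
-/

namespace SF3

open Finset SFree

/-- Module ASY3: from the sets for the parameters `D` to all `n`. -/
theorem asym3
    (h : ∃ C₀ : ℝ, ∃ D₀ : ℕ, ∀ D : ℕ, D₀ ≤ D → ∃ A : Finset ℤ, (∀ a ∈ A, 0 < a) ∧ 0 < A.card ∧
      Real.log A.card ≤ C₀ * D * Real.log D ^ 2 ∧
      ∀ B ⊆ A, SumFree (B : Set ℤ) → (B.card : ℝ) ≤ (1 / 3 + 9 / D) * A.card) :
    ∃ C : ℝ, ∃ n₀ : ℕ, ∀ n : ℕ, n₀ ≤ n → (f n : ℝ) ≤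
      n / 3 + C * n * Real.log (Real.log n) ^ 2 / Real.log n := by
  obtain ⟨C₀, D₀, hC₀⟩ := h
  set C₁ : ℝ := max C₀ 1 with hC₁
  have hC₁1 : 1 ≤ C₁ := le_max_right _ _
  have hC₁0 : 0 < C₁ := by linarith
  set c : ℝ := 1 / (2 * C₁) with hc
  have hc0 : 0 < c := by positivity
  have hc1 : c ≤ 1 := by rw [hc, div_le_one (by positivity)]; linarith
  have hcC : C₁ * c = 1 / 2 := by
    rw [hc]
    field_simp
  refine ⟨18 / c + 2, ?_⟩
  -- eventual conditions
  have hLtend : Filter.Tendsto (fun n : ℕ => Real.log (Real.log n)) Filter.atTop Filter.atTop :=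
    Real.tendsto_log_atTop.comp (Real.tendsto_log_atTop.comp tendsto_natCast_atTop_atTop)
  have hltend : Filter.Tendsto (fun n : ℕ => Real.log n) Filter.atTop Filter.atTop :=
    Real.tendsto_log_atTop.comp tendsto_natCast_atTop_atTop
  set K : ℝ := max 2 (D₀ : ℝ) with hK
  have hK2 : 2 ≤ K := le_max_left _ _
  have hKD : (D₀ : ℝ) ≤ K := le_max_right _ _
  have hK0 : 0 < K := by linarith
  have hlogo : ∀ᶠ x : ℝ in Filter.atTop, Real.log x ^ 2 ≤ (c / K) * x := by
    have h1 := (Real.isLittleO_pow_log_id_atTop (n := 2)).bound (show (0 : ℝ) < c / K by positivity)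
    filter_upwards [h1, Filter.eventually_ge_atTop (1 : ℝ)] with x hx hx1
    rw [Real.norm_of_nonneg (by positivity), id, Real.norm_of_nonneg (by linarith)] at hx
    exact hx
  have hev : ∀ᶠ n : ℕ in Filter.atTop, 1 ≤ Real.log (Real.log n) ∧
      Real.log (Real.log n) ^ 2 ≤ (c / K) * Real.log n ∧
      4 ≤ Real.log n ∧ 1 ≤ (n : ℝ) := by
    filter_upwards [hLtend.eventually_ge_atTop 1, hltend.eventually hlogo,
      hltend.eventually_ge_atTop 4, Filter.eventually_ge_atTop 1] with n h1 h2 h3 h4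
    exact ⟨h1, h2, h3, by exact_mod_cast h4⟩
  obtain ⟨n₀, hn₀⟩ := Filter.eventually_atTop.1 hev
  refine ⟨n₀, fun n hn => ?_⟩
  obtain ⟨hL1, hL2, hl4, hn1⟩ := hn₀ n hn
  set l : ℝ := Real.log n with hl
  set L : ℝ := Real.log l with hL
  have hl0 : 0 < l := by linarith
  have hL0 : 0 < L := by linarith
  have hn0 : (0 : ℝ) < n := by linarith
  set x : ℝ := c * (l / L ^ 2) with hx
  have hxK : K ≤ x := by
    have h1 : K / c * L ^ 2 ≤ l := by
      calc K / c * L ^ 2 ≤ K / c * ((c / K) * l) := by gcongr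
        _ = l := by field_simp
    rw [hx]
    have h2 : K / c ≤ l / L ^ 2 := by
      rw [le_div_iff₀ (by positivity)]
      exact h1
    calc K = c * (K / c) := by field_simp
      _ ≤ _ := by gcongr
  have hx0 : 0 < x := by linarith
  set D : ℕ := ⌊x⌋₊ with hD
  have hD2 : 2 ≤ D := by
    rw [hD]; exact Nat.le_floor (by push_cast; linarith)
  have hDD : D₀ ≤ D := by
    rw [hD]; exact Nat.le_floor (by linarith)
  have hDx : (D : ℝ) ≤ x := Nat.floor_le hx0.le
  have hDx' : x / 2 ≤ D := by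
    have h1 := Nat.lt_floor_add_one x
    rw [← hD] at h1
    have : (1 : ℝ) ≤ D := by exact_mod_cast (by omega : 1 ≤ D)
    linarith
  have hD0 : (0 : ℝ) < D := by exact_mod_cast (by omega : 0 < D)
  obtain ⟨A, hpos, hA0, hAlog, hA⟩ := hC₀ D hDD
  have hf := Asy.f_le (by positivity) hpos hA0 hA n
  have hlogD0 : 0 ≤ Real.log D := Real.log_nonneg (by exact_mod_cast (by omega : 1 ≤ D))
  have hlogD : Real.log D ≤ L := by
    apply Real.log_le_log hD0
    refine hDx.trans ?_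
    rw [hx]
    have h1 : l / L ^ 2 ≤ l := div_le_self hl0.le (by nlinarith)
    nlinarith [div_nonneg hl0.le (sq_nonneg L)]
  have hlogA : Real.log A.card ≤ l / 2 := by
    calc Real.log A.card ≤ C₀ * D * Real.log D ^ 2 := hAlog
      _ ≤ C₁ * D * Real.log D ^ 2 := by
        gcongr
        exact le_max_left _ _
      _ ≤ C₁ * x * L ^ 2 := by gcongr
      _ = (C₁ * c) * l := by rw [hx]; field_simp
      _ = l / 2 := by rw [hcC]; ring
  have hAcard : (A.card : ℝ) ≤ Real.sqrt n := by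
    have h1 : Real.log A.card ≤ Real.log (Real.sqrt n) := by
      rw [Real.log_sqrt hn0.le]; exact hlogA
    exact (Real.log_le_log_iff (by exact_mod_cast hA0) (Real.sqrt_pos.2 hn0)).1 h1
  -- `√n ≤ 2 n L ^ 2 / l`
  have hsq0 : 0 < Real.sqrt n := Real.sqrt_pos.2 hn0
  have hln : l ≤ 2 * Real.sqrt n := by
    have h1 : Real.log (Real.sqrt n) = l / 2 := Real.log_sqrt hn0.le
    have h2 := Real.log_le_sub_one_of_pos hsq0
    linarith
  have hsn : Real.sqrt n ≤ 2 * n * L ^ 2 / l := by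
    rw [le_div_iff₀ hl0]
    have h1 : Real.sqrt n * Real.sqrt n = n := Real.mul_self_sqrt hn0.le
    have h2 : (1 : ℝ) ≤ L ^ 2 := by nlinarith
    calc Real.sqrt n * l ≤ Real.sqrt n * (2 * Real.sqrt n) := by gcongr
      _ = 2 * (Real.sqrt n * Real.sqrt n) * 1 := by ring
      _ = 2 * n * 1 := by rw [h1]
      _ ≤ 2 * n * L ^ 2 := by gcongr
  have h9D : 9 / (D : ℝ) ≤ 18 / c * L ^ 2 / l := by
    have h1 : 9 / (D : ℝ) ≤ 9 / (x / 2) := by
      have : 0 < x / 2 := by positivity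
      gcongr
    refine h1.trans (le_of_eq ?_)
    rw [hx]
    field_simp
    norm_num
  calc (f n : ℝ) ≤ (1 / 3 + 9 / D) * n + A.card := hf
    _ ≤ (1 / 3 + 18 / c * L ^ 2 / l) * n + 2 * n * L ^ 2 / l := by
      gcongr
      exact hAcard.trans hsn
    _ = n / 3 + (18 / c + 2) * n * L ^ 2 / l := by ring

end SF3
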