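import Mathlib

/-!
# The combinatorial count
-/

namespace SF3

open Finset

/-- `1 + g + ... + g ^ (n - 1)` for `g = 101 / 100`. -/
noncomputable def om (n : ℕ) : ℝ := ∑ k ∈ range n, (101 / 100 : ℝ) ^ k

theorem om_eq (n : ℕ) : (101 / 100 : ℝ) ^ n = 1 + om n / 100 := by
  induction n with
  | zero => simp [om]
  | succ n ih =>
    have : om (n + 1) = om n + (101 / 100 : ℝ) ^ n := sum_range_succ _ _
    rw [this, pow_succ, ih]
    ring

theorem om_nonneg (n : ℕ) : 0 ≤ om n := sum_nonneg (fun _ _ => by positivity)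

theorem om_mono {m n : ℕ} (h : m ≤ n) : om m ≤ om n :=
  sum_le_sum_of_subset_of_nonneg (range_mono h) (fun _ _ _ => by positivity)

theorem om_sub_two (n : ℕ) : om n ≤ om (n - 2) + 2 * (101 / 100 : ℝ) ^ n := by
  rcases n with _ | _ | n
  · simp [om]
  · simp [om]
    norm_num
  · have h1 : om (n + 1 + 1) = om (n + 1) + (101 / 100 : ℝ) ^ (n + 1) := sum_range_succ _ _
    have h2 : om (n + 1) = om n + (101 / 100 : ℝ) ^ n := sum_range_succ _ _
    have h3 : n + 1 + 1 - 2 = n := by omega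
    rw [h3, h1, h2]
    have h4 : (0 : ℝ) < (101 / 100 : ℝ) ^ n := by positivity
    have h5 : (101 / 100 : ℝ) ^ (n + 1) = (101 / 100 : ℝ) ^ n * (101 / 100) := pow_succ _ _
    have h6 : (101 / 100 : ℝ) ^ (n + 1 + 1) = (101 / 100 : ℝ) ^ n * (101 / 100) * (101 / 100) := by
      rw [pow_succ, pow_succ]
    rw [h6, h5]
    linarith

theorem pow_g_mono {m n : ℕ} (h : m ≤ n) : (101 / 100 : ℝ) ^ m ≤ (101 / 100 : ℝ) ^ n :=
  pow_le_pow_right₀ (by norm_num) h

/-- One node. -/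
theorem wc_node {K M J k₀ : ℕ} {δ : ℝ} (hδ0 : 0 < δ) (e : ℕ → ℝ)
    (hM : M ≤ K) (hJ : J ≤ K)
    (hb1 : ∀ k < K, e k ≤ 2 / 3) (hb : ∀ k < K, k ≠ k₀ → e k ≤ 1 / 6 + δ)
    (hk : ∀ k < M, e k ≤ -(1 / 3) + δ)
    (hc : ∀ j₀ j₁ j₂ k, J ≤ j₀ → j₀ < j₁ → j₁ < j₂ → j₂ < k → k < K → δ ≤ e k →
      2 * δ - 2 * e k ≤ e j₀ → 2 * δ - 2 * e k ≤ e j₁ → 2 * δ - 2 * e k ≤ e j₂ → False) :
    ∑ k ∈ range K, (101 / 100 : ℝ) ^ k * e k ≤
      om J / 6 + 2 * (101 / 100 : ℝ) ^ (J + 5) + 3 / 2 * (101 / 100 : ℝ) ^ (M + 5) - om M / 3 +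
        5 * δ * om K := by
  classical
  set g : ℝ := 101 / 100 with hg
  have hg0 : 0 < g := by rw [hg]; norm_num
  set J' := max J M with hJ'
  have hJK : J' ≤ K := max_le hJ hM
  -- remove δ
  have h1 : ∑ k ∈ range K, g ^ k * e k = ∑ k ∈ range K, g ^ k * (e k - δ) + δ * om K := by
    rw [om, mul_sum, ← sum_add_distrib]
    apply sum_congr rfl
    intro k _
    ring
  -- split
  have h2 : ∑ k ∈ range K, g ^ k * (e k - δ) =
      ∑ k ∈ range J', g ^ k * (e k - δ) + ∑ k ∈ Ico J' K, g ^ k * (e k - δ) := by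
    rw [range_eq_Ico, range_eq_Ico, sum_Ico_consecutive _ (Nat.zero_le _) hJK]
  -- part A
  have hA : ∑ k ∈ range J', g ^ k * (e k - δ) ≤ om J / 6 - om M / 3 + g ^ J / 2 := by
    have hp : ∀ k ∈ range J', g ^ k * (e k - δ) ≤
        (if k < J then g ^ k / 6 else 0) - (if k < M then g ^ k / 3 else 0) +
          (if k = k₀ ∧ k < J then g ^ k / 2 else 0) := by
      intro k hk'
      rw [mem_range] at hk'
      have hgk : 0 < g ^ k := by positivity
      have hkK : k < K := lt_of_lt_of_le hk' hJK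
      by_cases hkM : k < M
      · have e1 := hk k hkM
        have e2 : g ^ k * (e k - δ) ≤ -(g ^ k / 3) := by nlinarith
        rw [if_pos hkM]
        have e3 : (0 : ℝ) ≤ (if k < J then g ^ k / 6 else 0) := by split_ifs <;> positivity
        have e4 : (0 : ℝ) ≤ (if k = k₀ ∧ k < J then g ^ k / 2 else 0) := by
          split_ifs <;> positivity
        linarith
      · have hkJ : k < J := by
          rcases lt_max_iff.1 hk' with h | h
          · exact h
          · exact absurd h hkM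
        rw [if_neg hkM, if_pos hkJ]
        by_cases hk0 : k = k₀
        · rw [if_pos ⟨hk0, hkJ⟩]
          have e1 := hb1 k hkK
          nlinarith
        · rw [if_neg (fun h => hk0 h.1)]
          have e1 := hb k hkK hk0
          nlinarith
    refine (sum_le_sum hp).trans ?_
    rw [sum_add_distrib, sum_sub_distrib]
    have f1 : ∑ k ∈ range J', (if k < J then g ^ k / 6 else 0) = om J / 6 := by
      rw [← sum_filter, om, sum_div]
      apply sum_congr _ (fun _ _ => rfl)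
      ext x
      rw [mem_filter, mem_range, mem_range, hJ']
      have := le_max_left J M
      omega
    have f2 : ∑ k ∈ range J', (if k < M then g ^ k / 3 else 0) = om M / 3 := by
      rw [← sum_filter, om, sum_div]
      apply sum_congr _ (fun _ _ => rfl)
      ext x
      rw [mem_filter, mem_range, mem_range, hJ']
      have := le_max_right J M
      omega
    have f3 : ∑ k ∈ range J', (if k = k₀ ∧ k < J then g ^ k / 2 else 0) ≤ g ^ J / 2 := by
      have f4 : ∑ k ∈ range J', (if k = k₀ ∧ k < J then g ^ k / 2 else 0) ≤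
          ∑ k ∈ range J', (if k = k₀ then g ^ J / 2 else 0) := by
        apply sum_le_sum
        intro k _
        by_cases h : k = k₀
        · by_cases h' : k < J
          · rw [if_pos ⟨h, h'⟩, if_pos h]
            have := pow_g_mono h'.le
            linarith
          · rw [if_neg (fun h'' => h' h''.2), if_pos h]
            positivity
        · rw [if_neg (fun h'' => h h''.1), if_neg h]
      refine f4.trans ?_
      rw [sum_ite_eq']
      split_ifs
      · exact le_rfl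
      · positivity
    linarith
  -- part B
  have hB : ∑ k ∈ Ico J' K, g ^ k * (e k - δ) ≤ g ^ (J' + 5) := by
    set Dn := (Ico J' K).filter (fun k => δ ≤ e k) with hDn
    set Q := (Ico J' K).filter (fun k => ¬ δ ≤ e k) with hQ
    have hcard : Dn.card ≤ 3 := by
      by_contra hcon
      push Not at hcon
      have hmem := fun i => Finset.orderEmbOfCardLe_mem Dn (k := 4) hcon i
      set f := Dn.orderEmbOfCardLe (k := 4) hcon with hf
      have hlt : ∀ i j : Fin 4, i < j → f i < f j := fun i j h => f.strictMono h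
      have hm0 := hmem 0
      have hm1 := hmem 1
      have hm2 := hmem 2
      have hm3 := hmem 3
      rw [hDn, mem_filter, mem_Ico] at hm0 hm1 hm2 hm3
      refine hc (f 0) (f 1) (f 2) (f 3) ((le_max_left J M).trans hm0.1.1) (hlt _ _ (by decide))
        (hlt _ _ (by decide)) (hlt _ _ (by decide)) hm3.1.2 hm3.2 ?_ ?_ ?_ <;> linarith [hm0.2, hm1.2, hm2.2, hm3.2]
    have hsplit : ∑ k ∈ Ico J' K, g ^ k * (e k - δ) =
        ∑ k ∈ Dn, g ^ k * (e k - δ) + ∑ k ∈ Q, g ^ k * (e k - δ) :=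
      (sum_filter_add_sum_filter_not _ _ _).symm
    set Nr := Dn.filter (fun k => k < J' + 5) with hNr
    set F := Dn.filter (fun k => ¬ k < J' + 5) with hF
    have hsplit2 : ∑ k ∈ Dn, g ^ k * (e k - δ) =
        ∑ k ∈ Nr, g ^ k * (e k - δ) + ∑ k ∈ F, g ^ k * (e k - δ) :=
      (sum_filter_add_sum_filter_not _ _ _).symm
    have hNr1 : ∑ k ∈ Nr, g ^ k * (e k - δ) ≤ g ^ (J' + 5) := by
      have hp : ∀ k ∈ Nr, g ^ k * (e k - δ) ≤
          g ^ (J' + 5) / 6 + (if k = k₀ then g ^ (J' + 5) / 2 else 0) := by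
        intro k hk'
        rw [hNr, mem_filter, hDn, mem_filter, mem_Ico] at hk'
        obtain ⟨⟨⟨h1, h2⟩, h3⟩, h4⟩ := hk'
        have e0 : (0 : ℝ) ≤ e k - δ := by linarith
        have e1 : g ^ k ≤ g ^ (J' + 5) := pow_g_mono h4.le
        have e2 : g ^ k * (e k - δ) ≤ g ^ (J' + 5) * (e k - δ) := by gcongr
        have e3 : 0 < g ^ (J' + 5) := by positivity
        by_cases hk0 : k = k₀
        · rw [if_pos hk0]
          have e4 := hb1 k h2
          nlinarith
        · rw [if_neg hk0]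
          have e4 := hb k h2 hk0
          nlinarith
      refine (sum_le_sum hp).trans ?_
      rw [sum_add_distrib, sum_const, nsmul_eq_mul, sum_ite_eq']
      have e1 : Nr.card ≤ 3 := (card_le_card (filter_subset _ _)).trans hcard
      have e2 : (Nr.card : ℝ) ≤ 3 := by exact_mod_cast e1
      have e3 : 0 < g ^ (J' + 5) := by positivity
      have e4 : (if k₀ ∈ Nr then g ^ (J' + 5) / 2 else 0) ≤ g ^ (J' + 5) / 2 := by
        split_ifs
        · exact le_rfl
        · positivity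
      nlinarith
    have hQ0 : ∀ k ∈ Q, g ^ k * (e k - δ) ≤ 0 := by
      intro k hk'
      rw [hQ, mem_filter] at hk'
      have h1 := not_le.1 hk'.2
      have h2 : 0 < g ^ k := by positivity
      nlinarith
    have hFQ : ∑ k ∈ F, g ^ k * (e k - δ) + ∑ k ∈ Q, g ^ k * (e k - δ) ≤ 0 := by
      rcases F.eq_empty_or_nonempty with hF0 | hF0
      · rw [hF0, sum_empty, zero_add]
        exact sum_nonpos hQ0
      · obtain ⟨k₁, hk₁, hmax⟩ := exists_max_image F (fun k => g ^ k * (e k - δ)) hF0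
        have hk₁' := hk₁
        rw [hF, mem_filter, hDn, mem_filter, mem_Ico] at hk₁'
        obtain ⟨⟨⟨h1, h2⟩, h3⟩, h4⟩ := hk₁'
        have hFc : (F.card : ℝ) ≤ 3 := by
          exact_mod_cast (card_le_card (filter_subset _ _)).trans hcard
        have hX0 : 0 ≤ g ^ k₁ * (e k₁ - δ) := mul_nonneg (by positivity) (by linarith)
        have hFs : ∑ k ∈ F, g ^ k * (e k - δ) ≤ 3 * (g ^ k₁ * (e k₁ - δ)) := by
          refine (sum_le_card_nsmul F _ _ hmax).trans ?_
          rw [nsmul_eq_mul]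
          gcongr
        set W := (Ico (k₁ - 5) k₁).filter (fun j => 2 * δ - 2 * e k₁ ≤ e j) with hW
        set Z := (Ico (k₁ - 5) k₁).filter (fun j => ¬ 2 * δ - 2 * e k₁ ≤ e j) with hZ
        have hWZ : W.card + Z.card = 5 := by
          rw [hW, hZ, card_filter_add_card_filter_not, Nat.card_Ico]
          omega
        have hWc : W.card ≤ 2 := by
          by_contra hcon
          push Not at hcon
          have hmem := fun i => Finset.orderEmbOfCardLe_mem W (k := 3) hcon i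
          set f := W.orderEmbOfCardLe (k := 3) hcon with hf
          have hlt : ∀ i j : Fin 3, i < j → f i < f j := fun i j h => f.strictMono h
          have hm0 := hmem 0
          have hm1 := hmem 1
          have hm2 := hmem 2
          rw [hW, mem_filter, mem_Ico] at hm0 hm1 hm2
          have hJJ := le_max_left J M
          exact hc (f 0) (f 1) (f 2) k₁ (by omega) (hlt _ _ (by decide))
            (hlt _ _ (by decide)) hm2.1.2 h2 h3 hm0.2 hm1.2 hm2.2
        have hZc : 3 ≤ Z.card := by omega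
        have hZc' : (3 : ℝ) ≤ Z.card := by exact_mod_cast hZc
        have hZQ : Z ⊆ Q := by
          intro j hj
          rw [hZ, mem_filter, mem_Ico] at hj
          rw [hQ, mem_filter, mem_Ico]
          refine ⟨⟨by omega, by omega⟩, ?_⟩
          have := not_le.1 hj.2
          rw [not_le]
          linarith
        have hQZ : ∑ k ∈ Q, g ^ k * (e k - δ) ≤ ∑ k ∈ Z, g ^ k * (e k - δ) := by
          rw [← sum_sdiff hZQ]
          have : ∑ k ∈ Q \ Z, g ^ k * (e k - δ) ≤ 0 :=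
            sum_nonpos (fun k hk' => hQ0 k (mem_sdiff.1 hk').1)
          linarith
        have hZs : ∑ k ∈ Z, g ^ k * (e k - δ) ≤ -(6 * (g ^ (k₁ - 5) * (e k₁ - δ))) := by
          have hp : ∀ j ∈ Z, g ^ j * (e j - δ) ≤ -(2 * (g ^ (k₁ - 5) * (e k₁ - δ))) := by
            intro j hj
            rw [hZ, mem_filter, mem_Ico] at hj
            have e1 := not_le.1 hj.2
            have e2 : g ^ (k₁ - 5) ≤ g ^ j := pow_g_mono hj.1.1
            have e3 : e j - δ ≤ -(2 * (e k₁ - δ)) := by linarith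
            have e4 : 0 < g ^ j := by positivity
            calc g ^ j * (e j - δ) ≤ g ^ j * (-(2 * (e k₁ - δ))) := by gcongr
              _ = -(2 * (g ^ j * (e k₁ - δ))) := by ring
              _ ≤ _ := by
                have : g ^ (k₁ - 5) * (e k₁ - δ) ≤ g ^ j * (e k₁ - δ) :=
                  mul_le_mul_of_nonneg_right e2 (by linarith)
                linarith
          refine (sum_le_card_nsmul Z _ _ hp).trans ?_
          rw [nsmul_eq_mul]
          have e5 : 0 ≤ g ^ (k₁ - 5) * (e k₁ - δ) := mul_nonneg (by positivity) (by linarith)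
          nlinarith
        have hg5 : g ^ k₁ = g ^ (k₁ - 5) * g ^ 5 := by
          rw [← pow_add]; congr 1; omega
        have hg5' : g ^ 5 ≤ 2 := by rw [hg]; norm_num
        have e5 : 0 ≤ g ^ (k₁ - 5) * (e k₁ - δ) := mul_nonneg (by positivity) (by linarith)
        have e6 : g ^ k₁ * (e k₁ - δ) ≤ 2 * (g ^ (k₁ - 5) * (e k₁ - δ)) := by
          rw [hg5]
          nlinarith
        linarith
    rw [hsplit, hsplit2]
    linarith
  have hJ5 : g ^ (J' + 5) ≤ g ^ (J + 5) + g ^ (M + 5) := by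
    rcases max_choice J M with h | h
    · rw [hJ', h]
      have : 0 < g ^ (M + 5) := by positivity
      linarith
    · rw [hJ', h]
      have : 0 < g ^ (J + 5) := by positivity
      linarith
  have hJJ : g ^ J ≤ g ^ (J + 5) := pow_g_mono (by omega)
  have hp1 : 0 < g ^ (M + 5) := by positivity
  have hp2 : 0 < g ^ (J + 5) := by positivity
  have hom := om_nonneg K
  have hδom : 0 ≤ δ * om K := by positivity
  rw [h1, h2]
  linarith

/-- Module WC: the combinatorial count (pure real numbers). -/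
theorem wc {κ K : ℕ} (hκ : 0 < κ) {δ : ℝ} (hδ0 : 0 < δ) (hδ1 : δ ≤ 1 / 100) (e : ℕ → ℕ → ℝ)
    (ha : ∀ i < κ, ∀ k < K, -(1 / 3) ≤ e i k) (hb1 : ∀ i < κ, ∀ k < K, e i k ≤ 2 / 3)
    (hb : ∀ i < κ, ∃ k₀, ∀ k < K, k ≠ k₀ → e i k ≤ 1 / 6 + δ)
    (hkill : ∀ i, i + 1 < κ → ∀ j₀ j₁ j₂ k, j₀ < j₁ → j₁ < j₂ → j₂ < k → k < K → δ ≤ e i k →
      2 * δ - 2 * e i k ≤ e i j₀ → 2 * δ - 2 * e i k ≤ e i j₁ → 2 * δ - 2 * e i k ≤ e i j₂ →
      ∀ k', k' + 2 ≤ j₀ → e (i + 1) k' ≤ -(1 / 3) + δ) :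
    ∑ i ∈ range κ, (9 / 10 : ℝ) ^ i * ∑ k ∈ range K, (101 / 100 : ℝ) ^ k * e i k ≤
      (∑ i ∈ range κ, (9 / 10 : ℝ) ^ i) * (10 + 5 * δ * ∑ k ∈ range K, (101 / 100 : ℝ) ^ k) +
        (9 / 10 : ℝ) ^ (κ - 1) * (∑ k ∈ range K, (101 / 100 : ℝ) ^ k) / 5 := by
  classical
  -- the least `J` without a configuration above it
  let P : ℕ → ℕ → Prop := fun i J => ∀ j₀ j₁ j₂ k, J ≤ j₀ → j₀ < j₁ → j₁ < j₂ → j₂ < k → k < K →
    δ ≤ e i k → 2 * δ - 2 * e i k ≤ e i j₀ → 2 * δ - 2 * e i k ≤ e i j₁ →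
    2 * δ - 2 * e i k ≤ e i j₂ → False
  have hPK : ∀ i, P i K := by
    intro i j₀ j₁ j₂ k h1 h2 h3 h4 h5
    omega
  have hex : ∀ i, ∃ J, P i J := fun i => ⟨K, hPK i⟩
  let J : ℕ → ℕ := fun i => Nat.find (hex i)
  have hJspec : ∀ i, P i (J i) := fun i => Nat.find_spec (hex i)
  have hJK : ∀ i, J i ≤ K := fun i => Nat.find_min' (hex i) (hPK i)
  have hJmin : ∀ i, 0 < J i → ¬ P i (J i - 1) := fun i h => Nat.find_min (hex i) (by
    show J i - 1 < J i
    omega)
  let M : ℕ → ℕ := fun i => J (i - 1) - 2 * 1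
  let M' : ℕ → ℕ := fun i => if i = 0 then 0 else J (i - 1) - 2
  have hM0 : M' 0 = 0 := if_pos rfl
  have hMs : ∀ i, M' (i + 1) = J i - 2 := fun i => if_neg (Nat.succ_ne_zero i)
  have hMK : ∀ i, M' i ≤ K := by
    intro i
    rcases i with _ | i
    · rw [hM0]; exact Nat.zero_le _
    · rw [hMs]; have := hJK i; omega
  have hMk : ∀ i < κ, ∀ k < M' i, e i k ≤ -(1 / 3) + δ := by
    intro i hi k hk
    rcases i with _ | i
    · rw [hM0] at hk; omega
    · rw [hMs] at hk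
      have h1 := hJmin i (by omega)
      simp only [P] at h1
      push Not at h1
      obtain ⟨j₀, j₁, j₂, k₂, h2, h3, h4, h5, h6, h7, h8, h9, h10, -⟩ := h1
      exact hkill i hi j₀ j₁ j₂ k₂ h3 h4 h5 h6 h7 h8 h9 h10 k (by omega)
  -- one node
  have hnode : ∀ i < κ, ∑ k ∈ range K, (101 / 100 : ℝ) ^ k * e i k ≤
      (om (J i) / 6 + 2 * (101 / 100 : ℝ) ^ (J i + 5)) +
      (3 / 2 * (101 / 100 : ℝ) ^ (M' i + 5) - om (M' i) / 3) + 5 * δ * om K := by
    intro i hi
    obtain ⟨k₀, hk₀⟩ := hb i hi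
    have := wc_node hδ0 (e i) (hMK i) (hJK i) (hb1 i hi) hk₀ (hMk i hi) (hJspec i)
    linarith
  -- sum
  obtain ⟨n, rfl⟩ : ∃ n, κ = n + 1 := ⟨κ - 1, by omega⟩
  set Λ := ∑ i ∈ range (n + 1), (9 / 10 : ℝ) ^ i with hΛ
  have hΛ1 : 1 ≤ Λ := by
    rw [hΛ, sum_range_succ']
    have : 0 ≤ ∑ k ∈ range n, (9 / 10 : ℝ) ^ (k + 1) := sum_nonneg (fun _ _ => by positivity)
    simpa using this
  have h1 : ∑ i ∈ range (n + 1), (9 / 10 : ℝ) ^ i * ∑ k ∈ range K, (101 / 100 : ℝ) ^ k * e i k ≤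
      ∑ i ∈ range (n + 1), (9 / 10 : ℝ) ^ i * (om (J i) / 6 + 2 * (101 / 100 : ℝ) ^ (J i + 5)) +
      ∑ i ∈ range (n + 1), (9 / 10 : ℝ) ^ i *
        (3 / 2 * (101 / 100 : ℝ) ^ (M' i + 5) - om (M' i) / 3) + 5 * δ * om K * Λ := by
    rw [hΛ, mul_sum, ← sum_add_distrib, ← sum_add_distrib]
    apply sum_le_sum
    intro i hi
    have h2 := hnode i (mem_range.1 hi)
    have h3 : (0 : ℝ) < (9 / 10 : ℝ) ^ i := by positivity
    have h4 := mul_le_mul_of_nonneg_left h2 h3.le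
    refine h4.trans (le_of_eq ?_)
    ring
  have h2 : ∑ i ∈ range (n + 1), (9 / 10 : ℝ) ^ i *
      (om (J i) / 6 + 2 * (101 / 100 : ℝ) ^ (J i + 5)) =
      ∑ i ∈ range n, (9 / 10 : ℝ) ^ i * (om (J i) / 6 + 2 * (101 / 100 : ℝ) ^ (J i + 5)) +
      (9 / 10 : ℝ) ^ n * (om (J n) / 6 + 2 * (101 / 100 : ℝ) ^ (J n + 5)) := sum_range_succ _ _
  have h3 : ∑ i ∈ range (n + 1), (9 / 10 : ℝ) ^ i *
        (3 / 2 * (101 / 100 : ℝ) ^ (M' i + 5) - om (M' i) / 3) =
      ∑ i ∈ range n, (9 / 10 : ℝ) ^ i * (9 / 10 *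
        (3 / 2 * (101 / 100 : ℝ) ^ (M' (i + 1) + 5) - om (M' (i + 1)) / 3)) +
        3 / 2 * (101 / 100 : ℝ) ^ 5 := by
    rw [sum_range_succ']
    congr 1
    · apply sum_congr rfl
      intro i _
      rw [pow_succ]
      ring
    · rw [hM0]
      simp [om]
  have h4 : ∀ i ∈ range n, (9 / 10 : ℝ) ^ i * (om (J i) / 6 + 2 * (101 / 100 : ℝ) ^ (J i + 5)) +
      (9 / 10 : ℝ) ^ i * (9 / 10 *
        (3 / 2 * (101 / 100 : ℝ) ^ (M' (i + 1) + 5) - om (M' (i + 1)) / 3)) ≤
      5 * (9 / 10 : ℝ) ^ i := by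
    intro i _
    have e0 : (0 : ℝ) < (9 / 10 : ℝ) ^ i := by positivity
    have e1 : (101 / 100 : ℝ) ^ (M' (i + 1) + 5) ≤ (101 / 100 : ℝ) ^ (J i + 5) := by
      apply pow_g_mono
      rw [hMs]
      omega
    have e2 := om_sub_two (J i)
    rw [← hMs i] at e2
    have e3 := om_eq (J i)
    have e4 : (101 / 100 : ℝ) ^ (J i + 5) = (101 / 100 : ℝ) ^ (J i) * (101 / 100) ^ 5 :=
      pow_add _ _ _
    have e5 := om_nonneg (J i)
    have e6 : (om (J i) / 6 + 2 * (101 / 100 : ℝ) ^ (J i + 5)) + 9 / 10 *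
        (3 / 2 * (101 / 100 : ℝ) ^ (M' (i + 1) + 5) - om (M' (i + 1)) / 3) ≤ 5 := by
      rw [e3] at e2 e4
      rw [e4] at e1 ⊢
      norm_num at e1 ⊢
      linarith
    have e7 := mul_le_mul_of_nonneg_left e6 e0.le
    linarith
  have h5 : ∑ i ∈ range n, (9 / 10 : ℝ) ^ i * (om (J i) / 6 + 2 * (101 / 100 : ℝ) ^ (J i + 5)) +
      ∑ i ∈ range n, (9 / 10 : ℝ) ^ i * (9 / 10 *
        (3 / 2 * (101 / 100 : ℝ) ^ (M' (i + 1) + 5) - om (M' (i + 1)) / 3)) ≤ 5 * Λ := by
    rw [← sum_add_distrib]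
    refine (sum_le_sum h4).trans ?_
    rw [← mul_sum, hΛ, sum_range_succ]
    have : (0 : ℝ) < (9 / 10 : ℝ) ^ n := by positivity
    linarith
  have h6 : (9 / 10 : ℝ) ^ n * (om (J n) / 6 + 2 * (101 / 100 : ℝ) ^ (J n + 5)) ≤
      (9 / 10 : ℝ) ^ n * om K / 5 + 3 := by
    have e0 : (0 : ℝ) < (9 / 10 : ℝ) ^ n := by positivity
    have e00 : (9 / 10 : ℝ) ^ n ≤ 1 := pow_le_one₀ (by norm_num) (by norm_num)
    have e1 := om_mono (hJK n)
    have e3 := om_eq (J n)
    have e4 : (101 / 100 : ℝ) ^ (J n + 5) = (101 / 100 : ℝ) ^ (J n) * (101 / 100) ^ 5 :=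
      pow_add _ _ _
    have e5 := om_nonneg (J n)
    have e6 : om (J n) / 6 + 2 * (101 / 100 : ℝ) ^ (J n + 5) ≤ om K / 5 + 3 := by
      rw [e4, e3]
      norm_num
      linarith
    have e7 := mul_le_mul_of_nonneg_left e6 e0.le
    nlinarith
  have h7 : n + 1 - 1 = n := by omega
  have h8 : (101 / 100 : ℝ) ^ 5 ≤ 4 / 3 := by norm_num
  rw [h7]
  have h9 : ∑ k ∈ range K, (101 / 100 : ℝ) ^ k = om K := rfl
  rw [h9]
  rw [h2, h3] at h1
  nlinarith

end SF3
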