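import Pool.Agent.SF2.Basic

/-!
# Cycle lemma
-/

namespace SF3

open Finset SF2

/-- Module CYC: cycle lemma. -/
theorem cycle (S : Finset ℤ) (hpos : ∀ s ∈ S, 0 < s) (T : ℕ) (α l : ℝ)
    (hd : (α + l) * T ≤ ((lev S T).card : ℝ)) (hα : 0 ≤ α) :
    ∃ a : ℕ, a ≤ T ∧ l * T ≤ a ∧ ∀ t ≤ a,
      α * t ≤ ((S.filter (fun s => (a : ℤ) - t < s ∧ s ≤ a)).card : ℝ) := by
  obtain ⟨a, ha, hmax⟩ := exists_max_image (range (T + 1))
    (fun a => ((lev S a).card : ℝ) - α * a) ⟨0, by simp⟩
  rw [mem_range] at ha
  refine ⟨a, by omega, ?_, ?_⟩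
  · have h1 := hmax T (by simp)
    have h2 : (lev S a).card ≤ a := by
      have : lev S a ⊆ Icc 1 (a : ℤ) := by
        intro x hx
        rw [mem_lev] at hx
        rw [mem_Icc]
        have := hpos x hx.1
        omega
      have h3 := card_le_card this
      rw [Int.card_Icc] at h3
      omega
    have h3 : ((lev S a).card : ℝ) ≤ a := by exact_mod_cast h2
    have h4 : 0 ≤ α * a := by positivity
    nlinarith
  · intro t ht
    have h1 := hmax (a - t) (by rw [mem_range]; omega)
    have h2 : (lev S a).card = (lev S (a - t)).card +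
        (S.filter (fun s => (a : ℤ) - t < s ∧ s ≤ a)).card := by
      rw [← card_union_of_disjoint]
      · congr 1
        ext x
        rw [mem_union, mem_lev, mem_lev, mem_filter]
        push_cast [Nat.cast_sub ht]
        constructor
        · rintro ⟨h1, h2⟩
          by_cases h : x ≤ (a : ℤ) - t
          · left; exact ⟨h1, h⟩
          · right; exact ⟨h1, by omega, h2⟩
        · rintro (⟨h1, h2⟩ | ⟨h1, h2, h3⟩)
          · exact ⟨h1, by omega⟩
          · exact ⟨h1, h3⟩
      · rw [disjoint_left]
        intro x hx hx'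
        rw [mem_lev] at hx
        rw [mem_filter] at hx'
        push_cast [Nat.cast_sub ht] at hx
        omega
    have h3 : ((lev S a).card : ℝ) = (lev S (a - t)).card +
        (S.filter (fun s => (a : ℤ) - t < s ∧ s ≤ a)).card := by exact_mod_cast h2
    rw [Nat.cast_sub ht] at h1
    linarith

end SF3
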