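import Pool.Agent.SF2.Basic
import Pool.Agent.SF2.Cont

/-!
# All but few elements are in few Schur triples
-/

namespace SF3

open Finset SFree SF2

theorem sum_rep_le (S : Finset ℤ) (N : ℕ) (hN : ∀ s ∈ S, s ≤ (N : ℤ)) :
    ∑ s ∈ S, rep S s ≤ prs S N N := by
  unfold prs
  rw [card_filter, sum_product]
  apply sum_le_sum
  intro s hs
  unfold rep
  rw [card_filter]
  apply sum_le_sum
  intro x hx
  by_cases h : x + s ∈ S
  · rw [if_pos h, if_pos ⟨hN s hs, hN _ h, h⟩]
  · rw [if_neg h]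
    exact Nat.zero_le _

theorem sum_fs_le (S : Finset ℤ) (N : ℕ) (hN : ∀ s ∈ S, s ≤ (N : ℤ)) :
    ∑ a ∈ S, (S.filter (fun s => a - s ∈ S)).card ≤ prs S N N := by
  have h1 : ∑ a ∈ S, (S.filter (fun s => a - s ∈ S)).card =
      ((S ×ˢ S).filter (fun p => p.1 - p.2 ∈ S)).card := by
    rw [card_filter, sum_product]
    apply sum_congr rfl
    intro a _
    rw [card_filter]
  rw [h1]
  unfold prs
  apply card_le_card_of_injOn (fun p : ℤ × ℤ => (p.2, p.1 - p.2))
  · intro p hp
    rw [mem_coe, mem_filter, mem_product] at hp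
    rw [mem_coe, mem_filter, mem_product]
    simp only
    have e : p.1 - p.2 + p.2 = p.1 := by ring
    rw [e]
    exact ⟨⟨hp.1.2, hp.2⟩, hN _ hp.1.2, hN _ hp.1.1, hp.1.1⟩
  · rintro ⟨a, b⟩ _ ⟨c, d⟩ _ h
    simp only [Prod.mk.injEq] at h ⊢
    obtain ⟨h1, h2⟩ := h
    subst h1
    exact ⟨by linarith, rfl⟩

theorem card_gt_mul (S : Finset ℤ) (F : ℤ → ℕ) (E P : ℕ) (h : ∑ s ∈ S, F s ≤ P) :
    (S.filter (fun s => E < F s)).card * E ≤ P := by
  refine le_trans ?_ h
  calc (S.filter (fun s => E < F s)).card * E = ∑ s ∈ S.filter (fun s => E < F s), E := by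
        rw [sum_const, smul_eq_mul]
    _ ≤ ∑ s ∈ S.filter (fun s => E < F s), F s := by
        apply sum_le_sum
        intro s hs
        exact (mem_filter.1 hs).2.le
    _ ≤ ∑ s ∈ S, F s := sum_le_sum_of_subset (filter_subset _ _)

/-- Module DEG: all but few elements are in few Schur triples. -/
theorem degs (S : Finset ℤ) (hpos : ∀ s ∈ S, 0 < s) (N E : ℕ) (hN : ∀ s ∈ S, s ≤ (N : ℤ)) (ε : ℝ)
    (hprs : (prs S N N : ℝ) ≤ ε * N * N) :
    ∃ S' ⊆ S, ((S \ S').card : ℝ) * E ≤ 2 * ε * N * N ∧ (∀ s ∈ S', rep S' s ≤ E) ∧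
      ∀ a ∈ S', (S'.filter (fun s => a - s ∈ S')).card ≤ E := by
  classical
  refine ⟨S.filter (fun s => rep S s ≤ E ∧ (S.filter (fun x => s - x ∈ S)).card ≤ E),
    filter_subset _ _, ?_, ?_, ?_⟩
  · have h1 := card_gt_mul S (fun s => rep S s) E _ (sum_rep_le S N hN)
    have h2 := card_gt_mul S (fun s => (S.filter (fun x => s - x ∈ S)).card) E _ (sum_fs_le S N hN)
    have h3 : S \ S.filter (fun s => rep S s ≤ E ∧ (S.filter (fun x => s - x ∈ S)).card ≤ E) ⊆
        S.filter (fun s => E < rep S s) ∪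
          S.filter (fun s => E < (S.filter (fun x => s - x ∈ S)).card) := by
      intro s hs
      rw [mem_sdiff, mem_filter] at hs
      rw [mem_union, mem_filter, mem_filter]
      by_cases h : rep S s ≤ E
      · right
        refine ⟨hs.1, ?_⟩
        by_contra hcon
        exact hs.2 ⟨hs.1, h, not_lt.1 hcon⟩
      · left
        exact ⟨hs.1, not_le.1 h⟩
    have h4 := (card_le_card h3).trans (card_union_le _ _)
    have h5 : (S \ S.filter (fun s => rep S s ≤ E ∧
        (S.filter (fun x => s - x ∈ S)).card ≤ E)).card * E ≤ 2 * prs S N N := by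
      refine (Nat.mul_le_mul_right E h4).trans ?_
      rw [add_mul]
      omega
    have h6 : ((S \ S.filter (fun s => rep S s ≤ E ∧
        (S.filter (fun x => s - x ∈ S)).card ≤ E)).card : ℝ) * E ≤ 2 * prs S N N := by
      exact_mod_cast h5
    linarith
  · intro s hs
    rw [mem_filter] at hs
    refine le_trans (card_le_card ?_) hs.2.1
    intro x hx
    rw [mem_filter] at hx ⊢
    exact ⟨(mem_filter.1 hx.1).1, (mem_filter.1 hx.2).1⟩
  · intro a ha
    rw [mem_filter] at ha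
    refine le_trans (card_le_card ?_) ha.2.2
    intro x hx
    rw [mem_filter] at hx ⊢
    exact ⟨(mem_filter.1 hx.1).1, (mem_filter.1 hx.2).1⟩

end SF3
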