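import Pool.Agent.SF3.Sets
import Pool.Agent.SF3.Asym

/-!
# The bound `f n ≤ n / 3 + C n (log log n) ^ 2 / log n`
-/

namespace SF3

open Finset SFree SF2

theorem main_bound : ∃ C : ℝ, ∃ n₀ : ℕ, ∀ n : ℕ, n₀ ≤ n → (f n : ℝ) ≤
    n / 3 + C * n * Real.log (Real.log n) ^ 2 / Real.log n := asym3 final_sets3

end SF3
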