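import Pool.Agent.SF2.Trio

/-!
# Three sets in `ZMod h` without a Schur triple, by Kneser's theorem (no size condition)
-/

namespace SF3

open Finset SFree SF2 Pool.Agent.Kneser
open scoped Pointwise

/-- Module TRIO2. -/
theorem trio' {h : ℕ} [NeZero h] (A B C : Finset (ZMod h)) (γ : ℝ) (hγ : 0 < γ)
    (hABC : ∀ a ∈ A, ∀ b ∈ B, a + b ∉ C)
    (hsum : (1 + γ) * h ≤ (A.card : ℝ) + B.card + C.card) :
    ∃ q : ℕ, 0 < q ∧ (q : ℝ) * γ ≤ 1 ∧ ∀ x : ZMod h,
      ¬ ((∀ a ∈ A, a + q * x ∉ A) ∧ (∀ b ∈ B, b + q * x ∉ B) ∧ (∀ c ∈ C, c + q * x ∉ C)) := by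
  have hh : (0 : ℝ) < h := by exact_mod_cast Nat.pos_of_ne_zero (NeZero.ne h)
  have hle : ∀ X : Finset (ZMod h), X.card ≤ h := by
    intro X
    exact (Finset.card_le_univ _).trans (by rw [ZMod.card])
  have hhalf : ∀ (X : Finset (ZMod h)) (g : ZMod h), (∀ a ∈ X, a + g ∉ X) → 2 * X.card ≤ h := by
    intro X g hX
    have := two_mul_card_le X Finset.univ g (Finset.subset_univ _) (Finset.subset_univ _) hX
    rwa [Finset.card_univ, ZMod.card] at this
  by_cases hAC : A = ∅ ∨ B = ∅ ∨ C = ∅
  · have hc0 : A.card = 0 ∨ B.card = 0 ∨ C.card = 0 := by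
      rcases hAC with h0 | h0 | h0
      · left; rw [h0, Finset.card_empty]
      · right; left; rw [h0, Finset.card_empty]
      · right; right; rw [h0, Finset.card_empty]
    have hA := hle A
    have hB' := hle B
    have hC := hle C
    refine ⟨1, one_pos, ?_, ?_⟩
    · have h1 : A.card + B.card + C.card ≤ 2 * h := by omega
      have h2 : ((A.card : ℝ) + B.card + C.card) ≤ 2 * h := by exact_mod_cast h1
      have h3 : (1 + γ) * h ≤ 2 * h := hsum.trans h2
      have h4 := le_of_mul_le_mul_right h3 hh
      push_cast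
      linarith
    · rintro x ⟨h1, h2, h3⟩
      have e1 := hhalf A _ h1
      have e2 := hhalf B _ h2
      have e3 := hhalf C _ h3
      have e4 : A.card + B.card + C.card ≤ h := by omega
      have e5 : ((A.card : ℝ) + B.card + C.card) ≤ h := by exact_mod_cast e4
      have e6 : 0 < γ * h := by positivity
      linarith
  · push Not at hAC
    obtain ⟨hA0, hB0, hC0⟩ := hAC
    have hAne : A.Nonempty := hA0
    have hBne : B.Nonempty := hB0
    set H := stab (A + B) with hH
    let K : AddSubgroup (ZMod h) :=
      { carrier := {x | x ∈ H}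
        add_mem' := fun ha hb => add_mem_stab ha hb
        zero_mem' := zero_mem_stab _
        neg_mem' := fun ha => neg_mem_stab ha }
    have hKmem : ∀ x, x ∈ K ↔ x ∈ H := fun x => Iff.rfl
    have hKcard : Nat.card K = H.card := by
      have h1 : Nat.card K = Nat.card {x // x ∈ H} := rfl
      rw [h1, Nat.card_eq_fintype_card, Fintype.card_coe]
    have hidx := K.card_mul_index
    rw [hKcard, Nat.card_zmod] at hidx
    have hm0 : 0 < K.index := by
      rcases Nat.eq_zero_or_pos K.index with h0 | h0
      · rw [h0, mul_zero] at hidx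
        exact absurd hidx.symm (NeZero.ne h)
      · exact h0
    have hkn := kneser hAne hBne
    rw [← hH] at hkn
    have h0H : (0 : ZMod h) ∈ H := zero_mem_stab _
    have hdisj : Disjoint (A + B) (C + H) := by
      rw [Finset.disjoint_left]
      intro x hx hxC
      obtain ⟨c, hc, g, hg, rfl⟩ := Finset.mem_add.1 hxC
      have h1 : -g ∈ H := neg_mem_stab hg
      rw [hH, mem_stab] at h1
      have h2 := (h1 _).2 hx
      have h3 : -g + (c + g) = c := by abel
      rw [h3] at h2
      obtain ⟨a, ha, b, hb, hab⟩ := Finset.mem_add.1 h2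
      exact hABC a ha b hb (hab ▸ hc)
    have hsumH : (A + B).card + (C + H).card ≤ h := by
      rw [← Finset.card_union_of_disjoint hdisj]
      exact hle _
    have hsub : ∀ X : Finset (ZMod h), X ⊆ X + H := by
      intro X x hx
      exact Finset.mem_add.2 ⟨x, hx, 0, h0H, add_zero x⟩
    have hA1 := Finset.card_le_card (hsub A)
    have hB1 := Finset.card_le_card (hsub B)
    have hC1 := Finset.card_le_card (hsub C)
    have hHle := hle H
    have hHge : γ * h ≤ (H.card : ℝ) := by
      have h1 : A.card + B.card + C.card ≤ h + H.card := by omega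
      have h2 : ((A.card : ℝ) + B.card + C.card) ≤ h + H.card := by exact_mod_cast h1
      linarith
    refine ⟨K.index, hm0, ?_, ?_⟩
    · have h3 : (H.card : ℝ) * K.index = h := by exact_mod_cast hidx
      have h4 : γ * h * K.index ≤ h := by
        calc γ * h * K.index ≤ H.card * K.index := by gcongr
          _ = h := h3
      have h5 : (K.index * γ) * h ≤ 1 * h := by linarith
      exact le_of_mul_le_mul_right h5 hh
    · rintro x ⟨h1, h2, h3⟩
      have hg : (K.index : ZMod h) * x ∈ H := by
        have h6 : K.index • x ∈ K := K.nsmul_index_mem _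
        rw [nsmul_eq_mul] at h6
        exact (hKmem _).1 h6
      have himg : ∀ X : Finset (ZMod h),
          X.image (fun y => y + (K.index : ZMod h) * x) ⊆ X + H := by
        intro X y hy
        obtain ⟨z, hz, rfl⟩ := Finset.mem_image.1 hy
        exact Finset.add_mem_add hz hg
      have e1 := two_mul_card_le A (A + H) _ (hsub A) (himg A) h1
      have e2 := two_mul_card_le B (B + H) _ (hsub B) (himg B) h2
      have e3 := two_mul_card_le C (C + H) _ (hsub C) (himg C) h3
      have e4 : A.card + B.card + C.card ≤ h := by omega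
      have e5 : ((A.card : ℝ) + B.card + C.card) ≤ h := by exact_mod_cast e4
      have e6 : 0 < γ * h := by positivity
      linarith

end SF3
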