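import Pool.Agent.SF3.Window
import Pool.Agent.SF3.Trio2
import Pool.Agent.SF3.Cycle

/-!
# One dense scale and three scales that are not too sparse
-/

namespace SF3

open Finset SFree SF2

set_option maxHeartbeats 2000000 in
theorem struct2 {D m : ℕ} (hD : 100 ≤ D) (S : Finset ℤ) (hpos : ∀ s ∈ S, 0 < s) (E : ℕ)
    (hE1 : ∀ s ∈ S, rep S s ≤ E) (hE2 : ∀ a ∈ S, (S.filter (fun s => a - s ∈ S)).card ≤ E)
    (α β : ℝ) (hα : 1 + 1 / (D : ℝ) ≤ 3 * α) (hαβ : 1 + 1 / (D : ℝ) ≤ 2 * α + β)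
    (x₀ p₀ p₄ p₅ T : ℕ) (hx₀ : 0 < x₀)
    (hm : (1 - 1 / (2 * (D : ℝ))) ^ m ≤ 1 / (200 * D))
    (hd0 : β * p₀ ≤ ((lev S p₀).card : ℝ)) (hd4 : β * p₄ ≤ ((lev S p₄).card : ℝ))
    (hd5 : β * p₅ ≤ ((lev S p₅).card : ℝ))
    (hdT : (α + 1 / (10 * (D : ℝ))) * T ≤ ((lev S T).card : ℝ))
    (hr0 : 1000 * D * (2 ^ (m + 1) * x₀) ≤ p₀) (hr4 : (1000 * D) ^ 2 * p₀ ≤ p₄)
    (hr5 : 1000 * D * p₄ ≤ p₅) (hrT : 1000 * D * p₅ ≤ T)
    (hE : 1000 * D * E ≤ p₀) (hmE : 200 * D * (m * E) ≤ p₅) :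
    ∃ q : ℕ, 0 < q ∧ q ≤ 2 * D ∧ ∀ s ∈ S, s < (x₀ : ℤ) → ¬ (q : ℤ) ∣ s := by
  classical
  have hD0 : (0 : ℝ) < D := by exact_mod_cast (by omega : 0 < D)
  have hDr : (100 : ℝ) ≤ D := by exact_mod_cast hD
  have hDinv : (0 : ℝ) < 1 / D := by positivity
  have hα0 : 0 ≤ α := by linarith
  have hpw : 0 < 2 ^ (m + 1) * x₀ := by positivity
  have hp0 : 0 < p₀ := lt_of_lt_of_le (by positivity) hr0
  set u : ℕ := 1000 * D * p₀ with hu
  have hu0 : 0 < u := by positivity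
  have hu4 : 1000 * D * u ≤ p₄ := by
    refine le_trans (le_of_eq ?_) hr4
    rw [hu]; ring
  have hp4 : 0 < p₄ := lt_of_lt_of_le (by positivity) hu4
  have hp5 : 0 < p₅ := lt_of_lt_of_le (by positivity) hr5
  have hp04 : p₀ ≤ p₄ := le_trans (Nat.le_mul_of_pos_left _ (by positivity)) hr4
  have hp45 : p₄ ≤ p₅ := le_trans (Nat.le_mul_of_pos_left _ (by positivity)) hr5
  have hu4' : u ≤ p₄ := le_trans (Nat.le_mul_of_pos_left _ (by positivity)) hu4
  have hp0u : p₀ ≤ u := Nat.le_mul_of_pos_left _ (by positivity)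
  -- the good point
  obtain ⟨a, haT, hal, hawin⟩ := cycle S hpos T α (1 / (10 * (D : ℝ))) hdT hα0
  have hawin' : ∀ t ≤ a, α * t ≤ ((win S a t).card : ℝ) := hawin
  have ha5 : p₅ ≤ a := by
    have h1 : 1000 * (D : ℝ) * p₅ ≤ T := by exact_mod_cast hrT
    have h2 : (p₅ : ℝ) ≤ a := by
      refine le_trans ?_ hal
      rw [div_mul_eq_mul_div, one_mul, le_div_iff₀ (by positivity)]
      have : (0 : ℝ) ≤ p₅ := by positivity
      nlinarith
    exact_mod_cast h2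
  have hw5 := hawin' p₅ ha5
  have hw4 := hawin' p₄ (hp45.trans ha5)
  have hwu := hawin' u (hu4'.trans (hp45.trans ha5))
  -- near period
  have hr4' : 1000 * D * (2 ^ (m + 1) * x₀) ≤ p₄ := hr0.trans hp04
  obtain ⟨h, hxh, hh, hper⟩ := near_period2 hD S hpos E hE1 hE2 α β hαβ x₀ p₄ p₅ a u hx₀ hm hd5 hw5
    hr4' hu4' hr5 (hE.trans (hp04.trans hp45)) hmE
  have hhpos : 0 < h := lt_of_lt_of_le hx₀ hxh
  have hhp0 : 1000 * D * h ≤ p₀ := le_trans (Nat.mul_le_mul_left _ hh) hr0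
  have : NeZero h := ⟨hhpos.ne'⟩
  set Y := win S a p₄ with hY
  set Yu := win S a u with hYu
  -- real versions
  have hp4r : (0 : ℝ) < p₄ := by exact_mod_cast hp4
  have hur : (0 : ℝ) < u := by exact_mod_cast hu0
  have hp0r : (0 : ℝ) < p₀ := by exact_mod_cast hp0
  have hhr : (0 : ℝ) < h := by exact_mod_cast hhpos
  have hk1000 : ∀ {x y : ℕ}, 1000 * D * x ≤ y → (x : ℝ) ≤ y / D / 1000 := by
    intro x y hxy
    have : 1000 * (D : ℝ) * x ≤ y := by exact_mod_cast hxy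
    rw [div_div, le_div_iff₀ (by positivity)]; linarith
  have hu4r := hk1000 hu4
  have hE4r : (E : ℝ) ≤ p₄ / D / 1000 := hk1000 (hE.trans hp04)
  have hhp0r := hk1000 hhp0
  have hp0ur : (p₀ : ℝ) ≤ u / D / 1000 := hk1000 (by rw [hu])
  have hp0u4r : (p₀ : ℝ) ≤ p₄ / D / 1000 := by
    refine le_trans ?_ hu4r
    exact_mod_cast hp0u
  have hp4D : (0 : ℝ) < p₄ / D := by positivity
  have huD : (0 : ℝ) < u / D := by positivity
  have hY4 : (1 + 1 / (D : ℝ)) * p₄ ≤ 2 * (Y.card : ℝ) + (lev S p₄).card := by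
    calc (1 + 1 / (D : ℝ)) * p₄ ≤ (2 * α + β) * p₄ := by gcongr
      _ = 2 * (α * p₄) + β * p₄ := by ring
      _ ≤ _ := by linarith
  have hY4' : (1 + 1 / (D : ℝ)) * p₄ ≤ 3 * (Y.card : ℝ) := by
    calc (1 + 1 / (D : ℝ)) * p₄ ≤ (3 * α) * p₄ := by gcongr
      _ = 3 * (α * p₄) := by ring
      _ ≤ _ := by linarith
  have hYu' : (1 + 1 / (D : ℝ)) * u ≤ 3 * (Yu.card : ℝ) := by
    calc (1 + 1 / (D : ℝ)) * u ≤ (3 * α) * u := by gcongr
      _ = 3 * (α * u) := by ring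
      _ ≤ _ := by linarith
  have e4 : (1 + 1 / (D : ℝ)) * p₄ = p₄ + p₄ / D := by ring
  have eu : (1 + 1 / (D : ℝ)) * u = u + u / D := by ring
  rw [e4] at hY4 hY4'
  rw [eu] at hYu'
  -- (K1)
  have hK1 : ∀ s ∈ S, rep Y s ≤ E := fun s hs => (rep_mono (win_sub _ _ _) s).trans (hE1 s hs)
  have hK1n : ∀ s ∈ S, rep Y (-s) ≤ E := fun s hs => by rw [rep_neg]; exact hK1 s hs
  -- (K2)
  have hK2 : ∀ a₁ ∈ Yu, ∀ a₂ ∈ Yu, E < rep Y (a₁ - a₂) := by
    intro a₁ h1 a₂ h2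
    have h3 := pop_win hpos hE2 (t := p₄) h1 h2
    have h4 : 2 * (Y.card : ℝ) + (lev S p₄).card ≤ p₄ + u + 2 * E + rep Y (a₁ - a₂) := by
      exact_mod_cast h3
    have h5 : (E : ℝ) < rep Y (a₁ - a₂) := by linarith
    exact_mod_cast h5
  -- (K3) gap lemma
  have hK3 : ∀ n : ℤ, |n| ≤ ((2 * p₀ : ℕ) : ℤ) → rep Y n ≤ E → ∀ a₁ ∈ Yu, ∀ a₂ ∈ Yu,
      a₁ - a₂ ≠ n + h := by
    intro n hn hrn a₁ h1 a₂ h2 heq
    have h3 := hper a₁ h1
    have h4 := fs_win hpos hE2 (t := p₄) (B := 2 * p₀) h2 hn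
    have e : ∀ s : ℤ, a₁ - h - s = a₂ + n - s := by intro s; omega
    simp only [e] at h3
    have h5 : 2 * (Y.card : ℝ) + (lev S p₄).card ≤ p₄ + u + 2 * (2 * p₀) + E + rep Y n +
        ((lev S p₄).filter (fun s => a₂ + n - s ∈ S)).card := by exact_mod_cast h4
    have h6 : (rep Y n : ℝ) ≤ E := by exact_mod_cast hrn
    have h7 : 3 * (p₄ : ℝ) / (10 * D) = 3 / 10 * (p₄ / D) := by field_simp
    rw [h7] at h3
    linarith
  -- sum-freeness
  have hK4 : ∀ x y : ℤ, |x| ≤ ((2 * p₀ : ℕ) : ℤ) → |y| ≤ ((2 * p₀ : ℕ) : ℤ) → rep Y x ≤ E →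
      rep Y y ≤ E → E < rep Y (x + y) := by
    intro x y hx hy hrx hry
    have h1 := win_sum (S := S) (a := a) (t := p₄) hx hy
    have h2 : 3 * (Y.card : ℝ) ≤ p₄ + 4 * (2 * p₀) + rep Y x + rep Y y + rep Y (x + y) := by
      exact_mod_cast h1
    have h3 : (rep Y x : ℝ) ≤ E := by exact_mod_cast hrx
    have h4 : (rep Y y : ℝ) ≤ E := by exact_mod_cast hry
    have h5 : (E : ℝ) < rep Y (x + y) := by linarith
    exact_mod_cast h5
  have hK5 : ∀ x y : ℤ, |x| ≤ ((2 * p₀ : ℕ) : ℤ) → |y| ≤ ((2 * p₀ : ℕ) : ℤ) → rep Y x ≤ E →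
      rep Y y ≤ E → ∃ a₁ ∈ Yu, ∃ a₂ ∈ Yu, a₁ - a₂ = x + y := by
    intro x y hx hy hrx hry
    have h0 : ∀ z : ℤ, rep Y z ≤ E → rep Yu z = 0 := by
      intro z hz
      by_contra hne
      have hne' : 0 < rep Yu z := Nat.pos_of_ne_zero hne
      unfold rep at hne'
      rw [card_pos] at hne'
      obtain ⟨t, ht⟩ := hne'
      rw [mem_filter] at ht
      have := hK2 _ ht.2 _ ht.1
      rw [add_sub_cancel_left] at this
      omega
    have h1 := win_sum (S := S) (a := a) (t := u) hx hy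
    rw [← hYu, h0 x hrx, h0 y hry] at h1
    have h2 : 3 * (Yu.card : ℝ) ≤ u + 4 * (2 * p₀) + 0 + 0 + rep Yu (x + y) := by
      exact_mod_cast h1
    have h3 : (0 : ℝ) < rep Yu (x + y) := by linarith
    have h4 : 0 < rep Yu (x + y) := by exact_mod_cast h3
    unfold rep at h4
    rw [card_pos] at h4
    obtain ⟨t, ht⟩ := h4
    rw [mem_filter] at ht
    exact ⟨_, ht.2, _, ht.1, by ring⟩
  -- classes
  set cl : Finset ℤ → ℤ → Finset (ZMod h) := fun Q g =>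
    (Q.filter (fun x => g ≤ x ∧ x < g + h)).image (fun n : ℤ => (n : ZMod h)) with hcl
  have hmemcl : ∀ {Q : Finset ℤ} {g : ℤ} {c : ZMod h}, c ∈ cl Q g ↔
      ∃ x ∈ Q, (g ≤ x ∧ x < g + h) ∧ (x : ZMod h) = c := by
    intro Q g c
    rw [hcl]
    simp only [mem_image, mem_filter]
    constructor
    · rintro ⟨x, ⟨hx, hx'⟩, hc⟩; exact ⟨x, hx, hx', hc⟩
    · rintro ⟨x, hx, hx', hc⟩; exact ⟨x, ⟨hx, hx'⟩, hc⟩
  have hcardcl : ∀ (Q : Finset ℤ) (g : ℤ), (cl Q g).card = (Q.filter (fun x => g ≤ x ∧ x < g + h)).card := by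
    intro Q g
    rw [hcl]
    apply card_image_of_injOn
    intro x hx y hy hxy
    rw [mem_coe, mem_filter] at hx hy
    have hdvd := (ZMod.intCast_eq_intCast_iff_dvd_sub _ _ _).1 hxy
    obtain ⟨k, hk⟩ := hdvd
    have hh0 : (0 : ℤ) < h := by exact_mod_cast hhpos
    have hk1 : -1 < k := by
      by_contra hcon
      have : k ≤ -1 := by omega
      nlinarith
    have hk2 : k < 1 := by
      by_contra hcon
      have : 1 ≤ k := by omega
      nlinarith
    have : k = 0 := by omega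
    rw [this] at hk
    omega
  -- averages
  have hSp : ∀ x ∈ S, 0 < x := hpos
  obtain ⟨v, hv, hvc⟩ := cw_avg1 hpos p₀ h hp0
  set S2 : Finset ℤ := tr Yu ((u : ℤ) - a) with hS2
  have hS2mem : ∀ x ∈ S2, 0 < x ∧ x ≤ u := by
    intro x hx
    rw [hS2, mem_tr, hYu, mem_win] at hx
    omega
  have hlevS2 : lev S2 u = S2 := by
    ext x
    rw [mem_lev]
    exact ⟨fun h => h.1, fun h => ⟨h, (hS2mem x h).2⟩⟩
  obtain ⟨g', hg', hgc⟩ := cw_avg2 (S := S2) (fun x hx => (hS2mem x hx).1) u h v hu0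
  rw [hlevS2, hS2, card_tr] at hgc
  rw [← hS2] at hgc
  set g : ℤ := (a : ℤ) - u + g' with hg
  have hcwS2 : ∀ w : ℤ, cw S2 h w = (cl Yu ((a : ℤ) - u + w)).card := by
    intro w
    rw [hcardcl]
    unfold cw
    rw [← card_tr (Yu.filter (fun x => (a : ℤ) - u + w ≤ x ∧ x < (a : ℤ) - u + w + h)) ((u : ℤ) - a)]
    congr 1
    ext x
    simp only [mem_filter, mem_Ico, hS2, mem_tr]
    constructor
    · rintro ⟨h1, h2⟩; exact ⟨h2, by omega, by omega⟩
    · rintro ⟨h1, h2, h3⟩; exact ⟨⟨by omega, by omega⟩, h1⟩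
  have hB : cw S2 h (g' : ℤ) = (cl Yu g).card := hcwS2 _
  have hC : cw S2 h ((v : ℤ) + g') = (cl Yu (g + v)).card := by
    rw [hcwS2]; congr 2; rw [hg]; ring
  have hA : cw S h (v : ℤ) = (cl S (v : ℤ)).card := by
    rw [hcardcl]
    unfold cw
    congr 1
    ext x
    rw [mem_filter, mem_filter, mem_Ico]
    tauto
  rw [hB, hC] at hgc
  rw [hA] at hvc
  -- ranges
  have hhp0' : h ≤ p₀ := le_trans (Nat.le_mul_of_pos_left _ (by positivity)) hhp0
  -- trio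
  have hABC : ∀ x ∈ cl S (v : ℤ), ∀ y ∈ cl Yu g, x + y ∉ cl Yu (g + v) := by
    intro x hx y hy hxy
    rw [hmemcl] at hx hy hxy
    obtain ⟨p, hp, hp', rfl⟩ := hx
    obtain ⟨b, hb, hb', rfl⟩ := hy
    obtain ⟨c, hc, hc', hcc⟩ := hxy
    have hdvd : (h : ℤ) ∣ p + b - c := by
      have h1 : ((c : ℤ) : ZMod h) = ((p + b : ℤ) : ZMod h) := by rw [hcc]; push_cast; ring
      exact (ZMod.intCast_eq_intCast_iff_dvd_sub _ _ _).1 h1
    rcases dvd_window (by exact_mod_cast hhpos) hdvd (by omega) (by omega) with h0 | h0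
    · have h1 := hK2 c hc b hb
      rw [show c - b = p by omega] at h1
      have := hK1 p hp
      omega
    · have h1 := hK3 (-p) (by
        rw [abs_neg, abs_of_nonneg (by omega)]; push_cast; omega) (hK1n p hp) b hb c hc
      exact h1 (by omega)
  have hsum : (1 + 1 / (2 * (D : ℝ))) * h ≤
      ((cl S (v : ℤ)).card : ℝ) + (cl Yu g).card + (cl Yu (g + v)).card := by
    have h1 : (h : ℝ) * (lev S p₀).card ≤ p₀ * (cl S (v : ℤ)).card + h * h := by exact_mod_cast hvc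
    have h2 : 2 * (h : ℝ) * Yu.card ≤ u * ((cl Yu g).card + (cl Yu (g + v)).card) + h * h +
        h * (v + h) := by exact_mod_cast hgc
    have h3 : (β - 1 / (1000 * D)) * h ≤ (cl S (v : ℤ)).card := by
      have h4 : (p₀ : ℝ) * ((β - 1 / (1000 * D)) * h) ≤ p₀ * (cl S (v : ℤ)).card := by
        have h5 : (h : ℝ) * (β * p₀) ≤ h * (lev S p₀).card := by gcongr
        have h6 : (h : ℝ) * h ≤ h * (p₀ / D / 1000) := by gcongr
        have h7 : (p₀ : ℝ) * ((β - 1 / (1000 * D)) * h) =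
          (h : ℝ) * (β * p₀) - h * (p₀ / D / 1000) := by field_simp
        linarith
      exact le_of_mul_le_mul_left h4 hp0r
    have h8 : (2 * α - 3 / (1000 * D)) * h ≤ ((cl Yu g).card : ℝ) + (cl Yu (g + v)).card := by
      have h4 : (u : ℝ) * ((2 * α - 3 / (1000 * D)) * h) ≤
          u * (((cl Yu g).card : ℝ) + (cl Yu (g + v)).card) := by
        have h5 : 2 * (h : ℝ) * (α * u) ≤ 2 * h * Yu.card := by gcongr
        have hv' : (v : ℝ) ≤ p₀ := by exact_mod_cast hv.le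
        have hh' : (h : ℝ) ≤ p₀ := by exact_mod_cast hhp0'
        have h6 : (h : ℝ) * h + h * (v + h) ≤ h * (3 * (u / D / 1000)) := by
          have : (h : ℝ) + (v + h) ≤ 3 * (u / D / 1000) := by linarith
          calc (h : ℝ) * h + h * (v + h) = h * (h + (v + h)) := by ring
            _ ≤ _ := by gcongr
        have h7 : (u : ℝ) * ((2 * α - 3 / (1000 * D)) * h) =
          2 * (h : ℝ) * (α * u) - h * (3 * (u / D / 1000)) := by field_simp
        linarith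
      exact le_of_mul_le_mul_left h4 hur
    have h9 : (1 + 1 / (2 * (D : ℝ))) * h ≤ (2 * α + β - 4 / (1000 * D)) * h := by
      have : 1 + 1 / (2 * (D : ℝ)) ≤ 2 * α + β - 4 / (1000 * D) := by
        have e1 : 1 / (2 * (D : ℝ)) = 1 / D / 2 := by field_simp
        have e2 : 4 / (1000 * (D : ℝ)) = 1 / D * (4 / 1000) := by field_simp
        rw [e1, e2]
        linarith
      gcongr
    have h10 : (2 * α + β - 4 / (1000 * D)) * (h : ℝ) =
      (β - 1 / (1000 * D)) * h + (2 * α - 3 / (1000 * D)) * h := by ring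
    linarith
  obtain ⟨q, hq0, hqγ, hq⟩ := trio' (cl S (v : ℤ)) (cl Yu g) (cl Yu (g + v)) (1 / (2 * (D : ℝ)))
    (by positivity) hABC hsum
  refine ⟨q, hq0, ?_, ?_⟩
  · rw [mul_one_div, div_le_one (by positivity)] at hqγ
    exact_mod_cast hqγ
  · intro s hs hsx hdvd
    obtain ⟨t, rfl⟩ := hdvd
    have hspos := hpos _ hs
    set s : ℤ := (q : ℤ) * t with hsdef
    have hcast : (q : ZMod h) * (t : ZMod h) = ((s : ℤ) : ZMod h) := by rw [hsdef]; push_cast; ring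
    have hsh : s < h := by omega
    have hsabs : |s| ≤ ((2 * p₀ : ℕ) : ℤ) := by
      rw [abs_of_pos hspos]; push_cast; omega
    refine hq t ⟨?_, ?_, ?_⟩
    · intro x hx hxs
      rw [hcast] at hxs
      rw [hmemcl] at hx hxs
      obtain ⟨p, hp, hp', rfl⟩ := hx
      obtain ⟨p', hp1, hp1', hpp⟩ := hxs
      have hdvd : (h : ℤ) ∣ p + s - p' := by
        have h1 : ((p' : ℤ) : ZMod h) = ((p + s : ℤ) : ZMod h) := by rw [hpp]; push_cast; ring
        exact (ZMod.intCast_eq_intCast_iff_dvd_sub _ _ _).1 h1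
      have hpabs : |p| ≤ ((2 * p₀ : ℕ) : ℤ) := by
        rw [abs_of_nonneg (by omega)]; push_cast; omega
      have hpabs' : |p'| ≤ ((2 * p₀ : ℕ) : ℤ) := by
        rw [abs_of_nonneg (by omega)]; push_cast; omega
      rcases dvd_window (by exact_mod_cast hhpos) hdvd (by omega) (by omega) with h0 | h0
      · have h1 := hK4 p s hpabs hsabs (hK1 p hp) (hK1 s hs)
        rw [show p + s = p' by omega] at h1
        have := hK1 p' hp1
        omega
      · obtain ⟨a₁, h1, a₂, h2, h3⟩ := hK5 p s hpabs hsabs (hK1 p hp) (hK1 s hs)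
        exact hK3 p' hpabs' (hK1 p' hp1) a₁ h1 a₂ h2 (by omega)
    · intro x hx hxs
      rw [hcast] at hxs
      rw [hmemcl] at hx hxs
      obtain ⟨p, hp, hp', rfl⟩ := hx
      obtain ⟨p', hp1, hp1', hpp⟩ := hxs
      have hdvd : (h : ℤ) ∣ p + s - p' := by
        have h1 : ((p' : ℤ) : ZMod h) = ((p + s : ℤ) : ZMod h) := by rw [hpp]; push_cast; ring
        exact (ZMod.intCast_eq_intCast_iff_dvd_sub _ _ _).1 h1
      rcases dvd_window (by exact_mod_cast hhpos) hdvd (by omega) (by omega) with h0 | h0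
      · have h1 := hK2 p' hp1 p hp
        rw [show p' - p = s by omega] at h1
        have := hK1 s hs
        omega
      · exact hK3 (-s) (by rw [abs_neg]; exact hsabs) (hK1n s hs) p hp p' hp1 (by omega)
    · intro x hx hxs
      rw [hcast] at hxs
      rw [hmemcl] at hx hxs
      obtain ⟨p, hp, hp', rfl⟩ := hx
      obtain ⟨p', hp1, hp1', hpp⟩ := hxs
      have hdvd : (h : ℤ) ∣ p + s - p' := by
        have h1 : ((p' : ℤ) : ZMod h) = ((p + s : ℤ) : ZMod h) := by rw [hpp]; push_cast; ring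
        exact (ZMod.intCast_eq_intCast_iff_dvd_sub _ _ _).1 h1
      rcases dvd_window (by exact_mod_cast hhpos) hdvd (by omega) (by omega) with h0 | h0
      · have h1 := hK2 p' hp1 p hp
        rw [show p' - p = s by omega] at h1
        have := hK1 s hs
        omega
      · exact hK3 (-s) (by rw [abs_neg]; exact hsabs) (hK1n s hs) p hp p' hp1 (by omega)

end SF3
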