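import Pool.Agent.SF2.Node
import Pool.Agent.SF3.Degs
import Pool.Agent.SF3.Struct2
import Pool.Agent.SF3.Count

/-!
# The weighted count for poor sets, third version
-/

namespace SF3

open Finset SFree SF2

theorem rr_le_rep (S : Finset ℤ) (b : ℕ) (s : ℤ) : rr S b s ≤ rep S s := by
  unfold rr rep
  apply card_le_card
  intro x hx
  rw [mem_filter] at hx ⊢
  exact ⟨hx.1, hx.2.1⟩

theorem lev_card_le {S : Finset ℤ} (hS : ∀ s ∈ S, 0 < s) (t : ℕ) : (lev S t).card ≤ t := by
  have h1 : lev S t ⊆ Icc (1 : ℤ) t := by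
    intro x hx
    rw [mem_lev] at hx
    have := hS x hx.1
    rw [mem_Icc]
    exact ⟨by omega, hx.2⟩
  have h2 := card_le_card h1
  rw [Int.card_Icc] at h2
  omega

theorem lev_card_split {S S' : Finset ℤ} (t : ℕ) :
    (lev S t).card ≤ (lev S' t).card + (S \ S').card := by
  have h1 : lev S t ⊆ lev S' t ∪ (S \ S') := by
    intro x hx
    rw [mem_lev] at hx
    rw [mem_union, mem_lev, mem_sdiff]
    by_cases h : x ∈ S'
    · exact Or.inl ⟨h, hx.2⟩
    · exact Or.inr ⟨hx.1, h⟩
  exact (card_le_card h1).trans (card_union_le _ _)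

/-- The weighted count for poor sets. -/
theorem poor_count3 {D m : ℕ} (hD : 100 ≤ D) (L : ℤ) (hL : 0 < L)
    (hLD : ∀ q : ℕ, 0 < q → q ≤ 2 * D → (q : ℤ) ∣ L)
    (N T₀ ρ κ K : ℕ) (hκ : 0 < κ) (hT₀ : 2000 * D ≤ T₀) (hN : T₀ * ρ ^ K = N)
    (hρL : L ≤ ρ) (hρm : (1000 * D) ^ 2 * 2 ^ (m + 3) ≤ ρ)
    (hm : (1 - 1 / (2 * (D : ℝ))) ^ m ≤ 1 / (200 * D))
    (ε : ℝ) (hε0 : 0 < ε) (hε : ε * (10 ^ 7 * D ^ 2 * ρ ^ (2 * K)) ≤ 1)
    (C : Finset ℤ) (hC : Poor L N (fun _ => N) κ 1 ε C) :
    ∑ i ∈ range κ, (9 / 10 : ℝ) ^ i * ∑ k ∈ range K, (101 / 100 : ℝ) ^ k *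
      ((((sec L N C i).filter (· ≤ ((T₀ * ρ ^ k : ℕ) : ℤ))).card : ℝ) / ((T₀ * ρ ^ k : ℕ) : ℝ)
        - 1 / 3)
      ≤ (∑ i ∈ range κ, (9 / 10 : ℝ) ^ i) * (10 + 5 * (1 / (D : ℝ)) *
          ∑ k ∈ range K, (101 / 100 : ℝ) ^ k) +
        (9 / 10 : ℝ) ^ (κ - 1) * (∑ k ∈ range K, (101 / 100 : ℝ) ^ k) / 5 := by
  classical
  have hDr : (100 : ℝ) ≤ D := by exact_mod_cast hD
  have hD0 : (0 : ℝ) < D := by linarith
  have hδ0 : (0 : ℝ) < 1 / D := by positivity
  have hδ1 : 1 / (D : ℝ) ≤ 1 / 100 := one_div_le_one_div_of_le (by norm_num) hDr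
  have h2m : 1 ≤ 2 ^ (m + 3) := Nat.one_le_two_pow
  have hD2 : 1000 * D ≤ (1000 * D) ^ 2 := by nlinarith
  have hρD2 : (1000 * D) ^ 2 ≤ ρ := by nlinarith
  have hρD : 1000 * D ≤ ρ := hD2.trans hρD2
  have hρ1 : 1 ≤ ρ := by omega
  have hρDr : (1000 : ℝ) * D ≤ ρ := by exact_mod_cast hρD
  have hT₀pos : 0 < T₀ := by omega
  obtain ⟨T, hTdef⟩ : ∃ T : ℕ → ℕ, T = fun k => T₀ * ρ ^ k := ⟨_, rfl⟩
  have hTapp : ∀ k, T₀ * ρ ^ k = T k := fun k => by rw [hTdef]
  have hTmono : Monotone T := by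
    intro a b hab
    rw [hTdef]
    exact Nat.mul_le_mul_left _ (Nat.pow_le_pow_right hρ1 hab)
  have hTpos : ∀ k, 0 < T k := by
    intro k
    rw [hTdef]
    positivity
  have hTr : ∀ k, (0 : ℝ) < T k := fun k => by exact_mod_cast hTpos k
  have hTsucc : ∀ k, T (k + 1) = ρ * T k := by
    intro k
    rw [hTdef]
    ring
  have hT0 : T 0 = T₀ := by rw [hTdef]; simp
  have hTN : T K = N := by rw [← hN, hTdef]
  have hstep : ∀ a b, a < b → ρ * T a ≤ T b := by
    intro a b hab
    rw [← hTsucc]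
    exact hTmono hab
  simp only [hTapp]
  have hNr : (N : ℝ) = T₀ * (ρ : ℝ) ^ K := by rw [← hN]; push_cast; rfl
  -- the error term
  obtain ⟨E, hE⟩ : ∃ E : ℕ, E = T₀ / (1000 * D) := ⟨_, rfl⟩
  have hE1 : 1000 * D * E ≤ T₀ := by rw [hE]; exact Nat.mul_div_le _ _
  have hE2 : T₀ ≤ 2000 * D * E := by
    have h1 : T₀ < 1000 * D * (E + 1) := by
      rw [hE]
      exact Nat.lt_mul_div_succ _ (by omega)
    have h2 : 2 ≤ E := by
      rw [hE, Nat.le_div_iff_mul_le (by omega)]
      omega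
    nlinarith
  have hE1r : (1000 : ℝ) * D * E ≤ T₀ := by exact_mod_cast hE1
  have hE2r : (T₀ : ℝ) ≤ 2000 * D * E := by exact_mod_cast hE2
  obtain ⟨η, hη⟩ : ∃ η : ℝ, η = 1 / 2500 * (1 / D) := ⟨_, rfl⟩
  have hη0 : 0 < η := by rw [hη]; positivity
  have hT₀r : (0 : ℝ) < T₀ := by exact_mod_cast hT₀pos
  -- the good parts
  have hsec : ∀ i < κ, ∃ S' ⊆ sec L N C i, (((sec L N C i) \ S').card : ℝ) ≤ η * T₀ ∧
      (∀ s ∈ S', rep S' s ≤ E) ∧ ∀ a ∈ S', (S'.filter (fun s => a - s ∈ S')).card ≤ E := by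
    intro i hi
    have hpos : ∀ s ∈ sec L N C i, 0 < s := by
      intro s hs
      rw [mem_sec] at hs
      omega
    have h1 : (prs (sec L N C i) N N : ℝ) ≤ ε * N * N := hC i hi 0 0 le_rfl one_pos
    obtain ⟨S', hS'sub, hcard, hr1, hr2⟩ := degs (sec L N C i) hpos N E (by
      intro s hs
      rw [mem_sec] at hs
      exact hs.1.2) ε h1
    refine ⟨S', hS'sub, ?_, hr1, hr2⟩
    have h2 : (((sec L N C i) \ S').card : ℝ) * T₀ ≤ (η * T₀) * T₀ := by
      have h3 : (0 : ℝ) ≤ (((sec L N C i) \ S').card : ℝ) := Nat.cast_nonneg _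
      have h4 : (((sec L N C i) \ S').card : ℝ) * T₀ ≤
          (((sec L N C i) \ S').card : ℝ) * (2000 * D * E) :=
        mul_le_mul_of_nonneg_left hE2r h3
      have h5 : (((sec L N C i) \ S').card : ℝ) * (2000 * D * E) ≤ 2000 * D * (2 * ε * N * N) := by
        calc (((sec L N C i) \ S').card : ℝ) * (2000 * D * E)
            = 2000 * D * ((((sec L N C i) \ S').card : ℝ) * E) := by ring
          _ ≤ _ := mul_le_mul_of_nonneg_left hcard (by positivity)
      have h6 : 2000 * D * (2 * ε * N * N) ≤ (η * T₀) * T₀ := by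
        have h7 : 2000 * D * (2 * ε * N * N) =
            (ε * (10 ^ 7 * D ^ 2 * ρ ^ (2 * K))) * (T₀ * T₀ * (1 / 2500 * (1 / D))) := by
          rw [hNr]
          field_simp
          ring
        rw [h7, hη]
        calc (ε * (10 ^ 7 * D ^ 2 * ρ ^ (2 * K))) * (T₀ * T₀ * (1 / 2500 * (1 / (D : ℝ)))) ≤
            1 * (T₀ * T₀ * (1 / 2500 * (1 / (D : ℝ)))) :=
              mul_le_mul_of_nonneg_right hε (by positivity)
          _ = _ := by ring
      linarith
    exact le_of_mul_le_mul_right h2 hT₀r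
  choose! S' hS'sub hS'card hS'rep hS'deg using hsec
  have hSpos : ∀ i, ∀ s ∈ sec L N C i, 0 < s := by
    intro i s hs
    rw [mem_sec] at hs
    omega
  have hS'pos : ∀ i < κ, ∀ s ∈ S' i, 0 < s := fun i hi s hs => hSpos i s (hS'sub i hi hs)
  obtain ⟨e, he⟩ : ∃ e : ℕ → ℕ → ℝ, e = fun i k =>
    (((sec L N C i).filter (· ≤ (T k : ℤ))).card : ℝ) / (T k : ℝ) - 1 / 3 := ⟨_, rfl⟩
  have heapp : ∀ i k, (((sec L N C i).filter (· ≤ (T k : ℤ))).card : ℝ) / (T k : ℝ) - 1 / 3 =
    e i k := fun i k => by rw [he]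
  have hecard : ∀ i k, ((lev (sec L N C i) (T k)).card : ℝ) = (e i k + 1 / 3) * T k := by
    intro i k
    rw [← heapp]
    unfold lev
    have := hTr k
    field_simp
    ring
  have hηT : ∀ k, η * T₀ ≤ η * T k := by
    intro k
    apply mul_le_mul_of_nonneg_left _ hη0.le
    rw [← hT0]
    exact_mod_cast hTmono (Nat.zero_le k)
  simp only [heapp]
  apply wc hκ hδ0 hδ1 e
  · intro i _ k _
    rw [← heapp]
    have : (0 : ℝ) ≤ (((sec L N C i).filter (· ≤ (T k : ℤ))).card : ℝ) / (T k : ℝ) :=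
      div_nonneg (Nat.cast_nonneg _) (hTr k).le
    linarith
  · intro i _ k _
    have h1 := lev_card_le (hSpos i) (T k)
    have h2 : ((lev (sec L N C i) (T k)).card : ℝ) ≤ T k := by exact_mod_cast h1
    rw [hecard] at h2
    have h3 : (e i k + 1 / 3) * T k ≤ 1 * T k := by linarith
    have h4 := le_of_mul_le_mul_right h3 (hTr k)
    linarith
  · intro i hi
    by_cases hne : ∃ k, (lev (S' i) (T k)).Nonempty
    · obtain ⟨k₀, hk₀⟩ : ∃ k₀, k₀ = Nat.find hne := ⟨_, rfl⟩
      refine ⟨k₀, fun k hk hkne => ?_⟩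
      have hsplit : ((lev (sec L N C i) (T k)).card : ℝ) ≤ (lev (S' i) (T k)).card + η * T k := by
        have h1 : ((lev (sec L N C i) (T k)).card : ℝ) ≤
            (lev (S' i) (T k)).card + ((sec L N C i) \ S' i).card := by
          exact_mod_cast lev_card_split (S := sec L N C i) (S' := S' i) (T k)
        have h2 := hS'card i hi
        have h3 := hηT k
        linarith
      rw [hecard] at hsplit
      rcases Nat.lt_or_gt_of_ne hkne with hlt | hgt
      · have h1 : ¬ (lev (S' i) (T k)).Nonempty := by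
          rw [hk₀] at hlt
          exact Nat.find_min hne hlt
        rw [not_nonempty_iff_eq_empty] at h1
        rw [h1, card_empty, Nat.cast_zero, zero_add] at hsplit
        have h4 := le_of_mul_le_mul_right hsplit (hTr k)
        rw [hη] at h4
        linarith
      · have h1 : (lev (S' i) (T k₀)).Nonempty := by
          rw [hk₀]
          exact Nat.find_spec hne
        obtain ⟨s, hs⟩ := h1
        rw [mem_lev] at hs
        have h2 := half_card (hS'pos i hi) (b := T k) (hS'pos i hi s hs.1) (e := (E : ℝ)) (by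
          exact_mod_cast (rr_le_rep _ _ _).trans (hS'rep i hi s hs.1))
        have h3 : (s : ℝ) ≤ T k₀ := by exact_mod_cast hs.2
        have h4 : ρ * T k₀ ≤ T k := hstep _ _ hgt
        have h5 : (ρ : ℝ) * T k₀ ≤ T k := by exact_mod_cast h4
        have h6 : 1000 * (D : ℝ) * T k₀ ≤ T k :=
          le_trans (mul_le_mul_of_nonneg_right hρDr (hTr k₀).le) h5
        have h7 : (T₀ : ℝ) ≤ T k := by
          rw [← hT0]
          exact_mod_cast hTmono (Nat.zero_le k)
        have h8 : (T k₀ : ℝ) ≤ 1 / 1000 * (1 / D) * T k := by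
          have : (1 : ℝ) / 1000 * (1 / D) * (1000 * (D : ℝ) * T k₀) = T k₀ := by
            field_simp
          rw [← this]
          exact mul_le_mul_of_nonneg_left h6 (by positivity)
        have h9 : (E : ℝ) ≤ 1 / 1000 * (1 / D) * T k := by
          have : (1 : ℝ) / 1000 * (1 / D) * (1000 * (D : ℝ) * E) = E := by
            field_simp
          rw [← this]
          exact mul_le_mul_of_nonneg_left (hE1r.trans h7) (by positivity)
        have h10 : 2 * ((lev (S' i) (T k)).card : ℝ) ≤ T k + s + E := h2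
        have h11 : (e i k + 1 / 3) * T k ≤ (1 / 2 + 1 / 1000 * (1 / D) + η) * T k := by
          linarith
        have h12 := le_of_mul_le_mul_right h11 (hTr k)
        rw [hη] at h12
        linarith
    · refine ⟨K, fun k hk _ => ?_⟩
      push Not at hne
      have h1 : ((lev (sec L N C i) (T k)).card : ℝ) ≤
          (lev (S' i) (T k)).card + ((sec L N C i) \ S' i).card := by
        exact_mod_cast lev_card_split (S := sec L N C i) (S' := S' i) (T k)
      have h2 := hS'card i hi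
      have h3 := hηT k
      rw [hne k, card_empty, Nat.cast_zero, zero_add, hecard] at h1
      have h4 : (e i k + 1 / 3) * T k ≤ η * T k := by linarith
      have h5 := le_of_mul_le_mul_right h4 (hTr k)
      rw [hη] at h5
      linarith
  · intro i hi j₀ j₁ j₂ k hj01 hj12 hj2k hkK hek hej0 hej1 hej2 k' hk'
    have hi' : i < κ := by omega
    have hlow : ∀ j, 2 * (1 / (D : ℝ)) - 2 * e i k ≤ e i j →
        (1 / 3 + 2 * (1 / (D : ℝ)) - 2 * e i k - η) * T j ≤ ((lev (S' i) (T j)).card : ℝ) := by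
      intro j hj
      have h1 : ((lev (sec L N C i) (T j)).card : ℝ) ≤
          (lev (S' i) (T j)).card + ((sec L N C i) \ S' i).card := by
        exact_mod_cast lev_card_split (S := sec L N C i) (S' := S' i) (T j)
      have h2 := hS'card i hi'
      have h3 := hηT j
      rw [hecard] at h1
      have h4 : (1 / 3 + 2 * (1 / (D : ℝ)) - 2 * e i k) * T j ≤ (e i j + 1 / 3) * T j :=
        mul_le_mul_of_nonneg_right (by linarith) (hTr j).le
      linarith
    have hT : (1 / 3 + e i k - η) * T k ≤ ((lev (S' i) (T k)).card : ℝ) := by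
      have h1 : ((lev (sec L N C i) (T k)).card : ℝ) ≤
          (lev (S' i) (T k)).card + ((sec L N C i) \ S' i).card := by
        exact_mod_cast lev_card_split (S := sec L N C i) (S' := S' i) (T k)
      have h2 := hS'card i hi'
      have h3 := hηT k
      rw [hecard] at h1
      linarith
    have hj0 : j₀ - 1 + 1 = j₀ := by omega
    obtain ⟨q, hq0, hqD, hq⟩ := struct2 (m := m) hD (S' i) (hS'pos i hi') E (hS'rep i hi')
      (hS'deg i hi') (1 / 3 + e i k - η - 1 / (10 * (D : ℝ)))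
      (1 / 3 + 2 * (1 / (D : ℝ)) - 2 * e i k - η)
      (by
        have : 1 / (10 * (D : ℝ)) = 1 / 10 * (1 / D) := by rw [one_div_mul_one_div]
        rw [this, hη]
        linarith)
      (by
        have : 1 / (10 * (D : ℝ)) = 1 / 10 * (1 / D) := by rw [one_div_mul_one_div]
        rw [this, hη]
        linarith)
      (T (j₀ - 1) + 1) (T j₀) (T j₁) (T j₂) (T k) (Nat.succ_pos _) hm
      (hlow j₀ hej0) (hlow j₁ hej1) (hlow j₂ hej2)
      (by
        refine le_trans (le_of_eq ?_) hT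
        ring)
      (by
        have h1 := hTpos (j₀ - 1)
        calc 1000 * D * (2 ^ (m + 1) * (T (j₀ - 1) + 1))
            ≤ 1000 * D * (2 ^ (m + 1) * (2 * T (j₀ - 1))) := by gcongr; omega
          _ = (1000 * D * 2 ^ (m + 2)) * T (j₀ - 1) := by ring
          _ ≤ ρ * T (j₀ - 1) := by
            apply Nat.mul_le_mul_right
            refine le_trans ?_ hρm
            exact Nat.mul_le_mul hD2 (Nat.pow_le_pow_right (by norm_num) (by omega))
          _ = T (j₀ - 1 + 1) := (hTsucc _).symm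
          _ = T j₀ := by rw [hj0])
      (le_trans (Nat.mul_le_mul_right _ hρD2) (hstep _ _ hj01))
      (le_trans (Nat.mul_le_mul_right _ hρD) (hstep _ _ hj12))
      (le_trans (Nat.mul_le_mul_right _ hρD) (hstep _ _ hj2k))
      (hE1.trans (by rw [← hT0]; exact hTmono (Nat.zero_le _)))
      (by
        have h1 : m ≤ ρ := by
          have h2 : m < 2 ^ m := Nat.lt_two_pow_self
          have h3 : 2 ^ m ≤ 2 ^ (m + 3) := Nat.pow_le_pow_right (by norm_num) (by omega)
          have h4 : 1 * 2 ^ (m + 3) ≤ (1000 * D) ^ 2 * 2 ^ (m + 3) :=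
            Nat.mul_le_mul_right _ (Nat.one_le_pow _ _ (by omega))
          omega
        calc 200 * D * (m * E) ≤ m * (1000 * D * E) := by
              calc 200 * D * (m * E) = m * (200 * D * E) := by ring
                _ ≤ m * (1000 * D * E) := by gcongr; omega
          _ ≤ ρ * T 0 := by rw [hT0]; exact Nat.mul_le_mul h1 hE1
          _ ≤ T j₂ := hstep _ _ (by omega))
    have hcard : (lev (sec L N C (i + 1)) (T k')).card ≤ ((sec L N C i) \ S' i).card := by
      refine card_le_card_of_injOn (fun n => L * n) ?_ ?_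
      · intro n hn
        have hn' := mem_lev.1 (mem_coe.1 hn)
        have hnS := hn'.1
        rw [mem_sec] at hnS
        have hLn : L * n ≤ (T (k' + 1) : ℤ) := by
          rw [hTsucc]
          push_cast
          exact mul_le_mul hρL hn'.2 (by omega) (by omega)
        have hLN : L * n ≤ (N : ℤ) := by
          have h3 : T (k' + 1) ≤ T K := hTmono (by omega)
          have h5 : (T (k' + 1) : ℤ) ≤ N := by rw [← hTN]; exact_mod_cast h3
          omega
        have hLpos : 1 ≤ L * n := by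
          have := mul_pos hL (show 0 < n by omega)
          omega
        have hmem : L * n ∈ sec L N C i := by
          rw [mem_sec]
          refine ⟨⟨hLpos, hLN⟩, ?_⟩
          have : L ^ i * (L * n) = L ^ (i + 1) * n := by ring
          rw [this]
          exact hnS.2
        refine mem_coe.2 (mem_sdiff.2 ⟨hmem, fun hmem' => ?_⟩)
        refine hq _ hmem' ?_ (Dvd.dvd.mul_right (hLD q hq0 hqD) n)
        have h3 : (T (k' + 1) : ℤ) ≤ T (j₀ - 1) := by
          exact_mod_cast hTmono (show k' + 1 ≤ j₀ - 1 by omega)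
        push_cast
        omega
      · intro a _ b _ hab
        exact mul_left_cancel₀ hL.ne' hab
    have h1 : ((lev (sec L N C (i + 1)) (T k')).card : ℝ) ≤ (((sec L N C i) \ S' i).card : ℝ) := by
      exact_mod_cast hcard
    have h2 := hS'card i hi'
    have h3 := hηT k'
    rw [hecard] at h1
    have h4 : (e (i + 1) k' + 1 / 3) * T k' ≤ η * T k' := by linarith
    have h5 := le_of_mul_le_mul_right h4 (hTr k')
    rw [hη] at h5
    linarith

end SF3
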