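import Pool.Agent.SF3.Weight
import Pool.Agent.SF3.Node

/-!
# The choice of the parameters
-/

namespace SF3

open Finset SFree SF2

/-- The abstract assembly: containers, poor counts and a random set. -/
theorem assemble {D m : ℕ} (hD : 100 ≤ D) (L : ℤ) (hL : 0 < L)
    (hLD : ∀ q : ℕ, 0 < q → q ≤ 2 * D → (q : ℤ) ∣ L)
    (N T₀ ρ κ K : ℕ) (hκ : 0 < κ) (hT₀ : 2000 * D ≤ T₀) (hN : T₀ * ρ ^ K = N)
    (hρL : L ≤ ρ) (hρm : (1000 * D) ^ 2 * 2 ^ (m + 3) ≤ ρ)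
    (hm : (1 - 1 / (2 * (D : ℝ))) ^ m ≤ 1 / (200 * D))
    (ε : ℝ) (hε0 : 0 < ε) (hε : ε * (10 ^ 7 * D ^ 2 * ρ ^ (2 * K)) ≤ 1)
    (hΩ : 10 * (D : ℝ) ≤ ∑ k ∈ range K, (101 / 100 : ℝ) ^ k)
    (hu : (9 / 10 : ℝ) ^ (κ - 1) ≤ 1 / D)
    (h₀ β : ℕ) (τ : ℝ) (hh₀ : 0 < h₀) (hh₀N : h₀ + 1 ≤ N) (hτ : 0 < τ)
    (hβ : (β : ℝ) ≤ h₀ * ε / 4)
    (hKW : Real.exp (-(τ / 2)) + Real.exp (-(τ / 2) * β) ≤ 1)
    (hbig : (N : ℝ) ^ (h₀ + 1) * Real.exp (-τ * (ε * N / 16 - h₀)) ≤ 1 / 2)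
    (hsmall : τ * (κ * N) < T₀ / D) :
    ∃ A : Finset ℤ, (∀ a ∈ A, 0 < a) ∧ 0 < A.card ∧ A.card ≤ κ * N ∧
      ∀ B ⊆ A, SumFree (B : Set ℤ) → (B.card : ℝ) ≤ (1 / 3 + 9 / D) * A.card := by
  have hD0 : (0 : ℝ) < D := by
    have : 0 < D := by omega
    exact_mod_cast this
  have hD100 : (100 : ℝ) ≤ D := by exact_mod_cast hD
  have hρ4 : 4 ≤ ρ := by
    have h1 : 1 ≤ 2 ^ (m + 3) := Nat.one_le_two_pow
    nlinarith
  have hρ1 : 1 ≤ ρ := by omega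
  have hT₀pos : 0 < T₀ := by omega
  obtain ⟨T, hTdef⟩ : ∃ T : ℕ → ℕ, T = fun k => T₀ * ρ ^ k := ⟨_, rfl⟩
  have hTN : ∀ k < K, T k ≤ N := by
    intro k hk
    rw [← hN, hTdef]
    exact Nat.mul_le_mul_left _ (Nat.pow_le_pow_right hρ1 hk.le)
  have hTpos : ∀ k < K, 0 < T k := by
    intro k _
    rw [hTdef]
    positivity
  obtain ⟨U, hU⟩ : ∃ U, U = UU L N κ := ⟨_, rfl⟩
  obtain ⟨𝒞, h𝒞1, h𝒞2, h𝒞3⟩ := containers L hL N (fun _ => N) κ 1 h₀ β ε τ monotone_const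
    (fun _ _ => le_rfl) hh₀ hh₀N hε0 hτ hβ hKW hbig U
  have h𝒞ne : 𝒞.Nonempty := by
    obtain ⟨C', hC', _⟩ := h𝒞1 ∅ (empty_subset _) (by
      intro a ha
      simp at ha)
    exact ⟨C', hC'⟩
  have hT₀r : (0 : ℝ) < T₀ := by exact_mod_cast hT₀pos
  obtain ⟨u, hudef⟩ : ∃ u : ℕ → ℝ, u = fun i => (9 / 10 : ℝ) ^ i := ⟨_, rfl⟩
  obtain ⟨g, hgdef⟩ : ∃ g : ℕ → ℝ, g = fun k => (101 / 100 : ℝ) ^ k := ⟨_, rfl⟩
  have hu0 : ∀ i, 0 ≤ u i := fun i => by rw [hudef]; positivity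
  have hg0 : ∀ i, 0 ≤ g i := fun i => by rw [hgdef]; positivity
  obtain ⟨Λ, hΛ⟩ : ∃ Λ : ℝ, Λ = ∑ i ∈ range κ, u i := ⟨_, rfl⟩
  obtain ⟨Ω, hΩdef⟩ : ∃ Ω : ℝ, Ω = ∑ k ∈ range K, g k := ⟨_, rfl⟩
  have hΛ1 : 1 ≤ Λ := by
    rw [hΛ]
    have h1 : u 0 ≤ ∑ i ∈ range κ, u i :=
      single_le_sum (fun i _ => hu0 i) (mem_range.2 hκ)
    have h2 : u 0 = 1 := by rw [hudef]; norm_num
    linarith
  have hΛ0 : 0 < Λ := by linarith
  have hΩ1 : 10 * (D : ℝ) ≤ Ω := by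
    rw [hΩdef, hgdef]
    exact hΩ
  have hΩ0 : 0 < Ω := by linarith
  -- the probabilities
  obtain ⟨p, hp⟩ : ∃ p : ℤ → ℝ, p = fun a => wt L T κ K u g a * (T₀ / (2 * Λ)) := ⟨_, rfl⟩
  have hp0 : ∀ a ∈ U, 0 ≤ p a := by
    intro a _
    rw [hp]
    exact mul_nonneg (wt_nonneg _ _ _ _ hu0 hg0 _) (by positivity)
  have hp1 : ∀ a ∈ U, p a ≤ 1 := by
    intro a _
    have h1 := wt_le L T κ K hu0 hg0 a
    have h2 := sum_inv_le T₀ ρ K hT₀pos hρ4
    have h3 : ∑ k ∈ range K, g k / T k ≤ 2 / T₀ := by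
      rw [hgdef, hTdef]
      exact h2
    rw [← hΛ] at h1
    calc p a = wt L T κ K u g a * (T₀ / (2 * Λ)) := by rw [hp]
      _ ≤ (Λ * (2 / T₀)) * (T₀ / (2 * Λ)) := by
          apply mul_le_mul_of_nonneg_right _ (by positivity)
          refine h1.trans ?_
          exact mul_le_mul_of_nonneg_left h3 hΛ0.le
      _ = 1 := by field_simp
  have hsumU : ∑ a ∈ U, p a = T₀ * Ω / 2 := by
    rw [hp, hU]
    rw [← sum_mul, sum_wt_UU hL hTN hTpos, ← hΛ, ← hΩdef]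
    field_simp
  have hα : (0 : ℝ) ≤ 1 / 3 + 7 / D := by positivity
  have hC : ∀ C ∈ 𝒞, ∑ a ∈ U ∩ C, p a ≤ (1 / 3 + 7 / D) * ∑ a ∈ U, p a := by
    intro C hC
    have hpoor := (h𝒞2 C hC).2
    have h1 := poor_count3 hD L hL hLD N T₀ ρ κ K hκ hT₀ hN hρL hρm hm ε hε0 hε C hpoor
    have h2 : ∑ a ∈ U ∩ C, p a = (∑ a ∈ U ∩ C, wt L T κ K u g a) * (T₀ / (2 * Λ)) := by
      rw [hp, sum_mul]
    have h3 : ∑ i ∈ range κ, (9 / 10 : ℝ) ^ i * ∑ k ∈ range K, (101 / 100 : ℝ) ^ k *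
        ((((sec L N C i).filter (· ≤ ((T₀ * ρ ^ k : ℕ) : ℤ))).card : ℝ) /
          ((T₀ * ρ ^ k : ℕ) : ℝ) - 1 / 3) =
        ∑ i ∈ range κ, u i * ∑ k ∈ range K,
          g k * ((((sec L N C i).filter (· ≤ (T k : ℤ))).card : ℝ) / T k) - Λ * (Ω / 3) := by
      rw [hΛ, hΩdef, sum_mul, ← sum_sub_distrib]
      apply sum_congr rfl
      intro i _
      rw [← mul_sub, hudef, hgdef, hTdef, sum_div, ← sum_sub_distrib]
      congr 1
      apply sum_congr rfl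
      intro k _
      ring
    rw [h3] at h1
    have h4 : (∑ i ∈ range κ, (9 / 10 : ℝ) ^ i) = Λ := by rw [hΛ, hudef]
    have h5 : (∑ k ∈ range K, (101 / 100 : ℝ) ^ k) = Ω := by rw [hΩdef, hgdef]
    rw [h4, h5] at h1
    rw [h2, hU, sum_wt hL hTN u g C, ← hU, hsumU]
    have h6 : Λ * (10 + 5 * (1 / (D : ℝ)) * Ω) + (9 / 10 : ℝ) ^ (κ - 1) * Ω / 5 ≤
        7 / D * (Λ * Ω) := by
      have h7 : 10 * Λ ≤ 1 / D * (Λ * Ω) := by
        rw [one_div_mul_eq_div, le_div_iff₀ hD0]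
        nlinarith
      have h8 : (9 / 10 : ℝ) ^ (κ - 1) * Ω / 5 ≤ 1 / D * (Λ * Ω) := by
        have h9 : (9 / 10 : ℝ) ^ (κ - 1) * Ω ≤ 1 / D * Ω :=
          mul_le_mul_of_nonneg_right hu hΩ0.le
        have h10 : 1 / D * Ω ≤ 1 / D * (Λ * Ω) := by
          apply mul_le_mul_of_nonneg_left _ (by positivity)
          nlinarith
        have h11 : 0 ≤ (9 / 10 : ℝ) ^ (κ - 1) * Ω := by positivity
        linarith
      have h12 : Λ * (10 + 5 * (1 / (D : ℝ)) * Ω) = 10 * Λ + 5 * (1 / D * (Λ * Ω)) := by ring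
      have h13 : 7 / (D : ℝ) * (Λ * Ω) = 7 * (1 / D * (Λ * Ω)) := by ring
      rw [h12, h13]
      linarith
    calc (∑ i ∈ range κ, u i * ∑ k ∈ range K,
          g k * ((((sec L N C i).filter (· ≤ (T k : ℤ))).card : ℝ) / T k)) * (T₀ / (2 * Λ))
        ≤ ((1 / 3 + 7 / (D : ℝ)) * (Λ * Ω)) * (T₀ / (2 * Λ)) := by
          apply mul_le_mul_of_nonneg_right _ (by positivity)
          have h14 : (1 / 3 + 7 / (D : ℝ)) * (Λ * Ω) = Λ * (Ω / 3) + 7 / D * (Λ * Ω) := by ring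
          rw [h14]
          linarith
      _ = (1 / 3 + 7 / D) * (T₀ * Ω / 2) := by field_simp
  have hcard𝒞 : (𝒞.card : ℝ) ≤ Real.exp (τ * (κ * N)) := by
    have h1 : ∀ C' ∈ 𝒞, Real.exp (-(τ * (κ * N))) ≤ Real.exp (-τ * ((U \ C').card : ℝ)) := by
      intro C' _
      rw [Real.exp_le_exp]
      have h2 : (U \ C').card ≤ κ * N := by
        rw [hU]
        exact (card_le_card sdiff_subset).trans (card_UU L N κ)
      have h3 : ((U \ C').card : ℝ) ≤ κ * N := by exact_mod_cast h2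
      nlinarith
    have h2 : (𝒞.card : ℝ) * Real.exp (-(τ * (κ * N))) ≤ 1 := by
      calc (𝒞.card : ℝ) * Real.exp (-(τ * (κ * N)))
          = ∑ C' ∈ 𝒞, Real.exp (-(τ * (κ * N))) := by rw [sum_const, nsmul_eq_mul]
        _ ≤ ∑ C' ∈ 𝒞, Real.exp (-τ * ((U \ C').card : ℝ)) := sum_le_sum h1
        _ ≤ 1 := h𝒞3
    rw [Real.exp_neg] at h2
    have h3 := Real.exp_pos (τ * (κ * N))
    rw [← div_eq_mul_inv, div_le_one h3] at h2
    exact h2
  have hcard : (𝒞.card : ℝ) < Real.exp ((1 / (D : ℝ)) ^ 2 / 4 * ∑ a ∈ U, p a) := by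
    refine hcard𝒞.trans_lt ?_
    rw [Real.exp_lt_exp, hsumU]
    refine hsmall.trans_le ?_
    have h1 : (1 / (D : ℝ)) ^ 2 / 4 * (T₀ * Ω / 2) = T₀ / D * (Ω / (8 * D)) := by
      field_simp
      norm_num
    rw [h1]
    have h2 : 1 ≤ Ω / (8 * D) := by
      rw [le_div_iff₀ (by positivity)]
      linarith
    have h3 : 0 ≤ (T₀ : ℝ) / D := by positivity
    nlinarith
  obtain ⟨A, hAU, hAne, hA⟩ := exists_random U p hp0 hp1 𝒞 h𝒞ne (1 / 3 + 7 / D) (1 / D) hα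
    (by positivity) (by
      have : (8 : ℝ) / D ≤ 8 / 100 := by gcongr
      have h4 : (7 : ℝ) / D + 1 / D = 8 / D := by ring
      linarith) hC hcard
  rw [hU] at hAU
  refine ⟨A, ?_, card_pos.2 hAne, (card_le_card hAU).trans (card_UU L N κ), ?_⟩
  · intro a ha
    obtain ⟨i, _, n, hn1, _, rfl⟩ := mem_UU.1 (hAU ha)
    have := pow_pos hL i
    positivity
  · intro B hB hBs
    obtain ⟨C', hC', hBC⟩ := h𝒞1 B (by rw [hU]; exact hB.trans hAU) hBs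
    have h1 : B ⊆ A ∩ C' := subset_inter hB hBC
    have h2 : (B.card : ℝ) ≤ (A ∩ C').card := by exact_mod_cast card_le_card h1
    have h3 := hA C' hC'
    have h4 : (1 / 3 + 7 / (D : ℝ) + 1 / D) ≤ 1 / 3 + 9 / D := by
      have h5 : (7 : ℝ) / D + 1 / D = 8 / D := by ring
      have h6 : (8 : ℝ) / D ≤ 9 / D := by gcongr; norm_num
      linarith
    have h5 : (0 : ℝ) ≤ A.card := Nat.cast_nonneg _
    calc (B.card : ℝ) ≤ (1 / 3 + 7 / D + 1 / D) * A.card := h2.trans h3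
      _ ≤ (1 / 3 + 9 / D) * A.card := mul_le_mul_of_nonneg_right h4 h5

theorem final_sets3 : ∃ C₀ : ℝ, ∃ D₀ : ℕ, ∀ D : ℕ, D₀ ≤ D →
    ∃ A : Finset ℤ, (∀ a ∈ A, 0 < a) ∧ 0 < A.card ∧
      Real.log A.card ≤ C₀ * D * Real.log D ^ 2 ∧
      ∀ B ⊆ A, SumFree (B : Set ℤ) → (B.card : ℝ) ≤ (1 / 3 + 9 / D) * A.card := by
  refine ⟨40000, 512, fun D hD => ?_⟩
  have hD1 : 1 ≤ D := by omega
  have hDr : (512 : ℝ) ≤ D := by exact_mod_cast hD
  have hD0 : (0 : ℝ) < D := by linarith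
  obtain ⟨l, hl⟩ : ∃ l, l = Nat.log 2 D + 9 := ⟨_, rfl⟩
  obtain ⟨b, hb⟩ : ∃ b, b = 2 ^ l := ⟨_, rfl⟩
  -- `256 D ≤ b ≤ 512 D`
  have hb1 : 256 * D ≤ b := by
    have h1 : D < 2 ^ (Nat.log 2 D + 1) := Nat.lt_pow_succ_log_self (by norm_num) D
    rw [hb, hl, pow_add]
    rw [pow_succ] at h1
    omega
  have hb2 : b ≤ 512 * D := by
    have h1 : 2 ^ Nat.log 2 D ≤ D := Nat.pow_log_le_self 2 (by omega)
    rw [hb, hl, pow_add]
    omega
  have hb128 : 131072 ≤ b := by omega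
  have hbr1 : 256 * (D : ℝ) ≤ b := by exact_mod_cast hb1
  have hbr2 : (b : ℝ) ≤ 512 * D := by exact_mod_cast hb2
  have hbr : (1 : ℝ) ≤ b := by nlinarith
  have hbr3 : (131072 : ℝ) ≤ b := by exact_mod_cast hb128
  have hb0 : (0 : ℝ) < b := by linarith
  have hlb : l ≤ b := by rw [hb]; exact Nat.lt_two_pow_self.le
  have hlbr : (l : ℝ) ≤ b := by exact_mod_cast hlb
  have hl0 : 1 ≤ l := by omega
  have hl0r : (1 : ℝ) ≤ l := by exact_mod_cast hl0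
  have hbl : (b : ℝ) = 2 ^ l := by rw [hb]; push_cast; rfl
  obtain ⟨m, hm⟩ : ∃ m, m = 2 * D * l := ⟨_, rfl⟩
  have h2m : 2 ^ m = b ^ (2 * D) := by rw [hb, ← pow_mul, hm, mul_comm]
  obtain ⟨ρ, hρ⟩ : ∃ ρ, ρ = b ^ (6 * D) := ⟨_, rfl⟩
  obtain ⟨K, hK⟩ : ∃ K, K = 100 * l := ⟨_, rfl⟩
  obtain ⟨κ, hκ⟩ : ∃ κ, κ = 7 * l + 1 := ⟨_, rfl⟩
  obtain ⟨R, hR⟩ : ∃ R, R = 600 * (D * l) := ⟨_, rfl⟩
  obtain ⟨T₀, hT₀⟩ : ∃ T₀, T₀ = b ^ (6 * R + 30) := ⟨_, rfl⟩
  obtain ⟨N, hN⟩ : ∃ N, N = b ^ (7 * R + 30) := ⟨_, rfl⟩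
  obtain ⟨h₀, hh₀⟩ : ∃ h₀, h₀ = b ^ (4 * R + 15) := ⟨_, rfl⟩
  obtain ⟨β, hβ⟩ : ∃ β, β = b ^ (2 * R + 11) := ⟨_, rfl⟩
  obtain ⟨τ, hτ⟩ : ∃ τ : ℝ, τ = 1 / (b : ℝ) ^ (R + 5) := ⟨_, rfl⟩
  obtain ⟨ε, hε⟩ : ∃ ε : ℝ, ε = 1 / (b : ℝ) ^ (2 * R + 3) := ⟨_, rfl⟩
  have hbpos : 0 < b := by omega
  have hρK : ρ ^ K = b ^ R := by
    rw [hρ, hK, hR, ← pow_mul]
    congr 1
    ring
  have hNeq : T₀ * ρ ^ K = N := by
    rw [hρK, hT₀, hN, ← pow_add]
    congr 1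
    ring
  have hbD2 : 65536 * (D : ℝ) ^ 2 ≤ (b : ℝ) ^ 2 := by nlinarith
  have hT₀pos : 0 < T₀ := by rw [hT₀]; positivity
  have hτ0 : 0 < τ := by rw [hτ]; positivity
  have hε0 : 0 < ε := by rw [hε]; positivity
  -- the conditions of `poor_count3`
  have hT₀D : 2000 * D ≤ T₀ := by
    rw [hT₀]
    calc 2000 * D ≤ b * b := by nlinarith
      _ = b ^ 2 := by ring
      _ ≤ b ^ (6 * R + 30) := Nat.pow_le_pow_right hbpos (by omega)
  have hρL : ((Nat.factorial (2 * D) : ℕ) : ℤ) ≤ ρ := by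
    have h1 : Nat.factorial (2 * D) ≤ (2 * D) ^ (2 * D) := Nat.factorial_le_pow _
    have h2 : (2 * D) ^ (2 * D) ≤ b ^ (2 * D) := Nat.pow_le_pow_left (by omega) _
    have h3 : b ^ (2 * D) ≤ b ^ (6 * D) := Nat.pow_le_pow_right hbpos (by omega)
    rw [hρ]
    exact_mod_cast h1.trans (h2.trans h3)
  have hρm : (1000 * D) ^ 2 * 2 ^ (m + 3) ≤ ρ := by
    rw [hρ, pow_add, h2m]
    have h1 : (1000 * D) ^ 2 * 2 ^ 3 ≤ b ^ 4 := by
      have h2 : 16 * D ^ 2 ≤ b * b := by nlinarith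
      have h3 : 131072 * 131072 ≤ b * b := Nat.mul_le_mul hb128 hb128
      calc (1000 * D) ^ 2 * 2 ^ 3 = (16 * D ^ 2) * 500000 := by ring
        _ ≤ (b * b) * (131072 * 131072) := Nat.mul_le_mul h2 (by norm_num)
        _ ≤ (b * b) * (b * b) := Nat.mul_le_mul_left _ h3
        _ = b ^ 4 := by ring
    calc (1000 * D) ^ 2 * (b ^ (2 * D) * 2 ^ 3) = ((1000 * D) ^ 2 * 2 ^ 3) * b ^ (2 * D) := by ring
      _ ≤ b ^ 4 * b ^ (2 * D) := Nat.mul_le_mul_right _ h1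
      _ = b ^ (4 + 2 * D) := by rw [pow_add]
      _ ≤ b ^ (6 * D) := Nat.pow_le_pow_right hbpos (by omega)
  have hmexp : (1 - 1 / (2 * (D : ℝ))) ^ m ≤ 1 / (200 * D) := by
    have h1 : 1 - 1 / (2 * (D : ℝ)) ≤ Real.exp (-(1 / (2 * D))) := by
      linarith [Real.add_one_le_exp (-(1 / (2 * (D : ℝ))))]
    have h2 : 0 ≤ 1 - 1 / (2 * (D : ℝ)) := by
      rw [sub_nonneg, div_le_one (by positivity)]
      linarith
    have h3 : (2 : ℝ) ^ l ≤ Real.exp l := by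
      have h4 : (2 : ℝ) ≤ Real.exp 1 := by
        linarith [Real.add_one_le_exp (1 : ℝ)]
      calc (2 : ℝ) ^ l ≤ (Real.exp 1) ^ l := pow_le_pow_left₀ (by norm_num) h4 l
        _ = Real.exp l := by rw [← Real.exp_nat_mul, mul_one]
    calc (1 - 1 / (2 * (D : ℝ))) ^ m ≤ (Real.exp (-(1 / (2 * D)))) ^ m :=
          pow_le_pow_left₀ h2 h1 m
      _ = Real.exp (-l) := by
          rw [← Real.exp_nat_mul, hm]
          congr 1
          push_cast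
          field_simp
      _ = 1 / Real.exp l := by rw [Real.exp_neg, one_div]
      _ ≤ 1 / (b : ℝ) := by
          apply one_div_le_one_div_of_le hb0
          rw [hbl]
          exact h3
      _ ≤ 1 / (200 * D) := by
          apply one_div_le_one_div_of_le (by positivity)
          linarith
  have hεD : ε * (10 ^ 7 * D ^ 2 * ρ ^ (2 * K)) ≤ 1 := by
    have h1 : (ρ : ℝ) ^ (2 * K) = (b : ℝ) ^ (2 * R) := by
      have h2 : (ρ : ℝ) ^ K = (b : ℝ) ^ R := by exact_mod_cast hρK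
      rw [mul_comm 2 K, pow_mul, h2, ← pow_mul, mul_comm R 2]
    rw [h1, hε, one_div_mul_eq_div, div_le_one (by positivity)]
    calc (10 : ℝ) ^ 7 * D ^ 2 * b ^ (2 * R) = (10 ^ 7 * D ^ 2) * b ^ (2 * R) := by ring
      _ ≤ (b : ℝ) ^ 3 * (b : ℝ) ^ (2 * R) := by
          apply mul_le_mul_of_nonneg_right _ (by positivity)
          calc (10 : ℝ) ^ 7 * (D : ℝ) ^ 2 ≤ (65536 * (D : ℝ) ^ 2) * 131072 := by nlinarith
            _ ≤ (b : ℝ) ^ 2 * (b : ℝ) := mul_le_mul hbD2 hbr3 (by norm_num) (by positivity)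
            _ = (b : ℝ) ^ 3 := by ring
      _ = (b : ℝ) ^ (2 * R + 3) := by rw [← pow_add, add_comm]
  have hΩ : 10 * (D : ℝ) ≤ ∑ k ∈ range K, (101 / 100 : ℝ) ^ k := by
    rw [geom_sum_eq (by norm_num)]
    have h1 : (2 : ℝ) ≤ (101 / 100) ^ 100 := by
      have h2 := one_add_mul_le_pow (a := (1 / 100 : ℝ)) (by norm_num) 100
      norm_num at h2 ⊢
    have h2 : (b : ℝ) ≤ (101 / 100) ^ K := by
      rw [hK, pow_mul, hbl]
      exact pow_le_pow_left₀ (by norm_num) h1 l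
    rw [le_div_iff₀ (by norm_num)]
    linarith
  have hu : (9 / 10 : ℝ) ^ (κ - 1) ≤ 1 / D := by
    have h1 : κ - 1 = 7 * l := by omega
    rw [h1, pow_mul]
    calc ((9 / 10 : ℝ) ^ 7) ^ l ≤ (1 / 2) ^ l :=
          pow_le_pow_left₀ (by norm_num) (by norm_num) l
      _ = 1 / b := by rw [hbl, one_div_pow]
      _ ≤ 1 / D := by
          apply one_div_le_one_div_of_le hD0
          linarith
  -- the conditions of `containers`
  have hh₀pos : 0 < h₀ := by rw [hh₀]; positivity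
  have hh₀N : h₀ + 1 ≤ N := by
    have h1 : b ^ (4 * R + 15) < b ^ (7 * R + 30) :=
      Nat.pow_lt_pow_right (by omega) (by omega)
    rw [hh₀, hN]
    exact h1
  have hβ' : (β : ℝ) ≤ h₀ * ε / 4 := by
    rw [hε, hβ, hh₀]
    push_cast
    rw [mul_one_div, div_div, le_div_iff₀ (by positivity)]
    calc (b : ℝ) ^ (2 * R + 11) * (b ^ (2 * R + 3) * 4)
        ≤ (b : ℝ) ^ (2 * R + 11) * (b ^ (2 * R + 3) * b ^ 1) := by
          gcongr
          rw [pow_one]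
          linarith
      _ = (b : ℝ) ^ (2 * R + 11 + (2 * R + 3) + 1) := by
          rw [pow_add _ (2 * R + 11 + (2 * R + 3)) 1, pow_add _ (2 * R + 11) (2 * R + 3)]; ring
      _ ≤ (b : ℝ) ^ (4 * R + 15) := powb_le hbr (by omega)
  have hτ1 : τ ≤ 1 := by
    rw [hτ, div_le_one (by positivity)]
    exact one_le_pow₀ hbr
  have hKW : Real.exp (-(τ / 2)) + Real.exp (-(τ / 2) * β) ≤ 1 := by
    have h1 := exp_neg_le_half (x := τ / 2) (by positivity) (by linarith)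
    have hβ0 : (0 : ℝ) < β := by rw [hβ]; push_cast; positivity
    have h2 : Real.exp (-(τ / 2) * β) ≤ 1 / ((τ / 2) * β) := by
      rw [neg_mul]
      exact exp_neg_le_inv (by positivity)
    have h3 : 1 / ((τ / 2) * β) ≤ τ / 2 / 2 := by
      rw [div_le_iff₀ (by positivity)]
      have h4 : 8 ≤ τ ^ 2 * β := by
        rw [hτ, hβ, one_div_pow, ← pow_mul]
        push_cast
        rw [one_div_mul_eq_div, le_div_iff₀ (by positivity)]
        calc (8 : ℝ) * (b : ℝ) ^ ((R + 5) * 2)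
            ≤ (b : ℝ) ^ 1 * (b : ℝ) ^ ((R + 5) * 2) := by
              gcongr
              rw [pow_one]
              linarith
          _ = (b : ℝ) ^ (2 * R + 11) := by
              rw [← pow_add]
              congr 1
              ring
      nlinarith
    linarith
  have hh₀1 : (1 : ℝ) ≤ h₀ := by exact_mod_cast hh₀pos
  -- `M = 7 R + 30 ≤ b ^ 3`
  have hM : ((7 * R + 30 : ℕ) : ℝ) ≤ (b : ℝ) ^ 3 := by
    rw [hR]
    push_cast
    have h1 : (D : ℝ) * l ≤ b * b := by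
      apply mul_le_mul _ hlbr (by positivity) hb0.le
      linarith
    have h2 : (1 : ℝ) ≤ b * b := by nlinarith
    calc 7 * (600 * ((D : ℝ) * l)) + 30 ≤ 7 * (600 * ((b : ℝ) * b)) + 30 * (b * b) := by
          linarith
      _ = 4230 * (b * b) := by ring
      _ ≤ b * (b * b) := by
          apply mul_le_mul_of_nonneg_right _ (by positivity)
          linarith
      _ = (b : ℝ) ^ 3 := by ring
  have hbig : (N : ℝ) ^ (h₀ + 1) * Real.exp (-τ * (ε * N / 16 - h₀)) ≤ 1 / 2 := by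
    have h1 : (N : ℝ) ≤ Real.exp ((b : ℝ) ^ 4) := by
      have h2 : (b : ℝ) ≤ Real.exp b := by linarith [Real.add_one_le_exp (b : ℝ)]
      calc (N : ℝ) = (b : ℝ) ^ (7 * R + 30) := by rw [hN]; push_cast; rfl
        _ ≤ (Real.exp b) ^ (7 * R + 30) := pow_le_pow_left₀ hb0.le h2 _
        _ = Real.exp (((7 * R + 30 : ℕ) : ℝ) * b) := by
            rw [← Real.exp_nat_mul]
        _ ≤ Real.exp ((b : ℝ) ^ 4) := by
            rw [Real.exp_le_exp]
            calc ((7 * R + 30 : ℕ) : ℝ) * b ≤ (b : ℝ) ^ 3 * b :=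
                  mul_le_mul_of_nonneg_right hM hb0.le
              _ = (b : ℝ) ^ 4 := by ring
    have h2 : (N : ℝ) ^ (h₀ + 1) ≤ Real.exp ((b : ℝ) ^ 4 * (h₀ + 1)) := by
      calc (N : ℝ) ^ (h₀ + 1) ≤ (Real.exp ((b : ℝ) ^ 4)) ^ (h₀ + 1) :=
            pow_le_pow_left₀ (Nat.cast_nonneg _) h1 _
        _ = Real.exp ((b : ℝ) ^ 4 * (h₀ + 1)) := by
            rw [← Real.exp_nat_mul]
            push_cast
            congr 1
            ring
    -- the exponent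
    have h3 : τ * (ε * N) = (b : ℝ) ^ (4 * R + 22) := by
      have h30 : (N : ℝ) = (b : ℝ) ^ (R + 5) * (b : ℝ) ^ (2 * R + 3) * (b : ℝ) ^ (4 * R + 22) := by
        rw [hN, ← pow_add, ← pow_add]
        push_cast
        congr 1
        ring
      have h31 : (0 : ℝ) < (b : ℝ) ^ (R + 5) := by positivity
      have h32 : (0 : ℝ) < (b : ℝ) ^ (2 * R + 3) := by positivity
      rw [h30, hτ, hε]
      generalize (b : ℝ) ^ (R + 5) = x at h31 ⊢
      generalize (b : ℝ) ^ (2 * R + 3) = v at h32 ⊢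
      generalize (b : ℝ) ^ (4 * R + 22) = w
      field_simp
    have h4 : (h₀ : ℝ) = (b : ℝ) ^ (4 * R + 15) := by rw [hh₀]; push_cast; rfl
    have h5 : (b : ℝ) ^ (4 * R + 22) = h₀ * b ^ 7 := by
      rw [h4, ← pow_add]
    have h6 : (b : ℝ) ^ 4 * (h₀ + 1) + 1 ≤ τ * (ε * N / 16 - h₀) := by
      have h7 : τ * (ε * N / 16 - h₀) = h₀ * b ^ 7 / 16 - τ * h₀ := by
        rw [← h5, ← h3]; ring
      rw [h7]
      have h8 : τ * h₀ ≤ h₀ := by nlinarith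
      have h9 : (1 : ℝ) ≤ b ^ 4 := one_le_pow₀ hbr
      have h10 : (b : ℝ) ^ 4 * (h₀ + 1) + 1 ≤ h₀ * (3 * b ^ 4) := by
        have h11 : (b : ℝ) ^ 4 * (h₀ + 1) ≤ b ^ 4 * (2 * h₀) := by
          gcongr
          linarith
        nlinarith
      have h11 : 3 * (b : ℝ) ^ 4 + 1 ≤ b ^ 7 / 16 := by
        have h12 : (64 : ℝ) ≤ b ^ 3 := by
          calc (64 : ℝ) ≤ (b : ℝ) := by linarith
            _ = (b : ℝ) ^ 1 := by rw [pow_one]
            _ ≤ (b : ℝ) ^ 3 := powb_le hbr (by norm_num)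
        have h14 : (b : ℝ) ^ 7 = b ^ 4 * b ^ 3 := by ring
        rw [h14]
        nlinarith
      have h12 : (h₀ : ℝ) * (3 * b ^ 4 + 1) ≤ h₀ * (b ^ 7 / 16) :=
        mul_le_mul_of_nonneg_left h11 (by positivity)
      linarith
    calc (N : ℝ) ^ (h₀ + 1) * Real.exp (-τ * (ε * N / 16 - h₀))
        ≤ Real.exp ((b : ℝ) ^ 4 * (h₀ + 1)) * Real.exp (-τ * (ε * N / 16 - h₀)) := by
          gcongr
      _ = Real.exp ((b : ℝ) ^ 4 * (h₀ + 1) - τ * (ε * N / 16 - h₀)) := by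
          rw [← Real.exp_add]
          congr 1
          ring
      _ ≤ Real.exp (-1) := by
          rw [Real.exp_le_exp]
          linarith
      _ ≤ 1 / 2 := by
          have := exp_neg_le_half (x := 1) (by norm_num) le_rfl
          linarith
  have hsmall : τ * (κ * N) < T₀ / D := by
    have h1 : (N : ℝ) = T₀ * (b : ℝ) ^ R := by
      rw [hN, hT₀]
      push_cast
      rw [← pow_add]
      congr 1
      ring
    have h2 : τ * (κ * N) = κ * T₀ / b ^ 5 := by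
      rw [h1, hτ, pow_add]
      field_simp
    rw [h2, div_lt_div_iff₀ (by positivity) (by positivity)]
    have hT : (0 : ℝ) < T₀ := by exact_mod_cast hT₀pos
    have h3 : (κ : ℝ) * D < b ^ 5 := by
      rw [hκ]
      push_cast
      calc (7 * (l : ℝ) + 1) * D ≤ (8 * b) * b := by
            apply mul_le_mul _ (by linarith) hD0.le (by positivity)
            linarith
        _ < b ^ 1 * b ^ 2 := by
            nlinarith
        _ = b ^ 3 := by ring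
        _ ≤ (b : ℝ) ^ 5 := powb_le hbr (by norm_num)
    nlinarith
  obtain ⟨A, hA1, hA2, hA3, hA4⟩ := assemble (D := D) (m := m) (by omega)
    ((Nat.factorial (2 * D) : ℕ) : ℤ) (by exact_mod_cast Nat.factorial_pos (2 * D))
    (fun q hq hqD => by exact_mod_cast Nat.dvd_factorial hq hqD) N T₀ ρ κ K (by omega) hT₀D hNeq
    hρL hρm hmexp ε hε0 hεD hΩ hu h₀ β τ hh₀pos hh₀N hτ0 hβ' hKW hbig hsmall
  refine ⟨A, hA1, hA2, ?_, hA4⟩
  have hAr : (0 : ℝ) < A.card := by exact_mod_cast hA2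
  have h1 : (A.card : ℝ) ≤ (b : ℝ) ^ (7 * R + 31) := by
    calc (A.card : ℝ) ≤ κ * N := by exact_mod_cast hA3
      _ ≤ b * (b : ℝ) ^ (7 * R + 30) := by
          rw [hN]
          push_cast
          apply mul_le_mul_of_nonneg_right _ (by positivity)
          have h2 : 7 * l + 1 ≤ b := by
            have h3 : ∀ t : ℕ, 7 * (t + 9) + 1 ≤ 2 ^ (t + 9) := by
              intro t
              induction t with
              | zero => norm_num
              | succ t ih =>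
                have h4 : 2 ^ (t + 1 + 9) = 2 ^ (t + 9) * 2 := by ring
                rw [h4]
                omega
            rw [hb, hl]
            exact h3 _
          rw [hκ]
          exact_mod_cast h2
      _ = (b : ℝ) ^ (7 * R + 31) := by ring
  have h2 : Real.log b ≤ 2 * Real.log D := by
    have h3 : (b : ℝ) ≤ (D : ℝ) ^ 2 := by nlinarith
    calc Real.log b ≤ Real.log ((D : ℝ) ^ 2) := Real.log_le_log hb0 h3
      _ = 2 * Real.log D := by rw [Real.log_pow]; push_cast; rfl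
  have h4 : 0 ≤ Real.log D := Real.log_nonneg (by linarith)
  have h5 : (l : ℝ) ≤ 4 * Real.log D := by
    have h6 : Real.log b = l * Real.log 2 := by rw [hbl, Real.log_pow]
    have h7 : (1 / 2 : ℝ) ≤ Real.log 2 := by
      have := Real.log_two_gt_d9
      linarith
    have h8 : (l : ℝ) * (1 / 2) ≤ l * Real.log 2 := mul_le_mul_of_nonneg_left h7 (by positivity)
    linarith
  have h6 : ((7 * R + 31 : ℕ) : ℝ) ≤ 4231 * (D * l) := by
    rw [hR]
    push_cast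
    have : (1 : ℝ) ≤ D * l := by nlinarith
    linarith
  calc Real.log A.card ≤ Real.log ((b : ℝ) ^ (7 * R + 31)) := Real.log_le_log hAr h1
    _ = ((7 * R + 31 : ℕ) : ℝ) * Real.log b := by rw [Real.log_pow]
    _ ≤ (4231 * (D * l)) * (2 * Real.log D) := by
        apply mul_le_mul h6 h2 (Real.log_nonneg hbr) (by positivity)
    _ ≤ (4231 * (D * (4 * Real.log D))) * (2 * Real.log D) := by gcongr
    _ ≤ 40000 * D * Real.log D ^ 2 := by
        have : 0 ≤ (D : ℝ) * Real.log D ^ 2 := by positivity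
        nlinarith

end SF3
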