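import Pool.Agent.SF2.Final

/-!
# Geometric weights on the union of the nodes
-/

namespace SF3

open Finset SFree SF2

open Classical in
/-- The weight of `a`: the sum of `u i * (g k / T k)` over the nodes containing `a`. -/
noncomputable def wt (L : ℤ) (T : ℕ → ℕ) (κ K : ℕ) (u g : ℕ → ℝ) (a : ℤ) : ℝ :=
  ∑ i ∈ range κ, ∑ k ∈ range K, if a ∈ nod L T i k then u i * (g k / T k) else 0

lemma wt_nonneg (L : ℤ) (T : ℕ → ℕ) (κ K : ℕ) {u g : ℕ → ℝ} (hu : ∀ i, 0 ≤ u i)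
    (hg : ∀ k, 0 ≤ g k) (a : ℤ) : 0 ≤ wt L T κ K u g a := by
  unfold wt
  apply sum_nonneg
  intro i _
  apply sum_nonneg
  intro k _
  split_ifs
  · exact mul_nonneg (hu i) (div_nonneg (hg k) (Nat.cast_nonneg _))
  · exact le_refl _

lemma wt_le (L : ℤ) (T : ℕ → ℕ) (κ K : ℕ) {u g : ℕ → ℝ} (hu : ∀ i, 0 ≤ u i)
    (hg : ∀ k, 0 ≤ g k) (a : ℤ) :
    wt L T κ K u g a ≤ (∑ i ∈ range κ, u i) * ∑ k ∈ range K, g k / T k := by
  unfold wt
  calc ∑ i ∈ range κ, ∑ k ∈ range K, (if a ∈ nod L T i k then u i * (g k / T k) else 0)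
      ≤ ∑ i ∈ range κ, ∑ k ∈ range K, u i * (g k / T k) := by
        apply sum_le_sum
        intro i _
        apply sum_le_sum
        intro k _
        split_ifs
        · exact le_refl _
        · exact mul_nonneg (hu i) (div_nonneg (hg k) (Nat.cast_nonneg _))
    _ = (∑ i ∈ range κ, u i) * ∑ k ∈ range K, g k / T k := by
        rw [sum_mul]
        apply sum_congr rfl
        intro i _
        rw [mul_sum]

lemma sum_wt {L : ℤ} (hL : 0 < L) {T : ℕ → ℕ} {N κ K : ℕ} (hT : ∀ k < K, T k ≤ N)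
    (u g : ℕ → ℝ) (C : Finset ℤ) :
    ∑ a ∈ UU L N κ ∩ C, wt L T κ K u g a =
      ∑ i ∈ range κ, u i * ∑ k ∈ range K,
        g k * ((((sec L N C i).filter (· ≤ (T k : ℤ))).card : ℝ) / T k) := by
  classical
  unfold wt
  rw [sum_comm]
  apply sum_congr rfl
  intro i hi
  rw [sum_comm, mul_sum]
  apply sum_congr rfl
  intro k hk
  rw [← card_node hL C i k (mem_range.1 hi) (hT k (mem_range.1 hk)), ← sum_filter, sum_const,
    nsmul_eq_mul]
  ring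

lemma sum_wt_UU {L : ℤ} (hL : 0 < L) {T : ℕ → ℕ} {N κ K : ℕ} (hT : ∀ k < K, T k ≤ N)
    (hT0 : ∀ k < K, 0 < T k) (u g : ℕ → ℝ) :
    ∑ a ∈ UU L N κ, wt L T κ K u g a = (∑ i ∈ range κ, u i) * ∑ k ∈ range K, g k := by
  have h := sum_wt hL hT u g (UU L N κ) (κ := κ)
  rw [inter_self] at h
  rw [h, sum_mul]
  apply sum_congr rfl
  intro i hi
  congr 1
  apply sum_congr rfl
  intro k hk
  have h1 : (sec L N (UU L N κ) i).filter (· ≤ (T k : ℤ)) = Icc (1 : ℤ) (T k) := by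
    ext n
    unfold sec
    rw [mem_filter, mem_filter, mem_Icc, mem_Icc]
    constructor
    · rintro ⟨⟨⟨h1, _⟩, _⟩, h2⟩
      exact ⟨h1, h2⟩
    · rintro ⟨h1, h2⟩
      have h3 : n ≤ N := h2.trans (by exact_mod_cast hT k (mem_range.1 hk))
      exact ⟨⟨⟨h1, h3⟩, mem_UU.2 ⟨i, mem_range.1 hi, n, h1, h3, rfl⟩⟩, h2⟩
  rw [h1, Int.card_Icc]
  have h2 : ((T k : ℤ) + 1 - 1).toNat = T k := by simp
  rw [h2]
  have h3 : (0 : ℝ) < T k := by exact_mod_cast hT0 k (mem_range.1 hk)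
  rw [div_self h3.ne', mul_one]

/-- The sum of the weighted reciprocals of the levels. -/
lemma sum_inv_le (T₀ ρ K : ℕ) (hT₀ : 0 < T₀) (hρ : 4 ≤ ρ) :
    ∑ k ∈ range K, (101 / 100 : ℝ) ^ k / ((T₀ * ρ ^ k : ℕ) : ℝ) ≤ 2 / T₀ := by
  have hT : (0 : ℝ) < T₀ := by exact_mod_cast hT₀
  have hρr : (4 : ℝ) ≤ ρ := by exact_mod_cast hρ
  have h1 : ∀ k ∈ range K, (101 / 100 : ℝ) ^ k / ((T₀ * ρ ^ k : ℕ) : ℝ) ≤
      (1 / T₀) * (1 / 2) ^ k := by
    intro k _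
    have h2 : (101 / 100 : ℝ) ^ k * 2 ^ k ≤ (ρ : ℝ) ^ k := by
      rw [← mul_pow]
      apply pow_le_pow_left₀ (by norm_num)
      linarith
    rw [one_div_pow, one_div_mul_one_div]
    push_cast
    rw [div_le_div_iff₀ (by positivity) (by positivity)]
    nlinarith
  calc ∑ k ∈ range K, (101 / 100 : ℝ) ^ k / ((T₀ * ρ ^ k : ℕ) : ℝ)
      ≤ ∑ k ∈ range K, (1 / (T₀ : ℝ)) * (1 / 2) ^ k := sum_le_sum h1
    _ = (1 / (T₀ : ℝ)) * ∑ k ∈ range K, (1 / 2 : ℝ) ^ k := by rw [mul_sum]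
    _ ≤ (1 / (T₀ : ℝ)) * 2 := by
        gcongr
        have h3 := geom_sum_eq (x := (1 / 2 : ℝ)) (by norm_num) K
        rw [h3]
        have h4 : (0 : ℝ) < (1 / 2) ^ K := by positivity
        rw [div_le_iff_of_neg (by norm_num)]
        linarith
    _ = 2 / T₀ := by ring

end SF3
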