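import Pool.Agent.SF2.Struct

/-!
# Windows near a good point
-/

namespace SF3

open Finset SFree SF2

/-- The elements of `S` in `(a - t, a]`. -/
noncomputable def win (S : Finset ℤ) (a t : ℕ) : Finset ℤ :=
  S.filter (fun s => (a : ℤ) - t < s ∧ s ≤ a)

theorem mem_win {S : Finset ℤ} {a t : ℕ} {s : ℤ} :
    s ∈ win S a t ↔ s ∈ S ∧ (a : ℤ) - t < s ∧ s ≤ a := by
  simp [win]

theorem rep_mono {Y S : Finset ℤ} (h : Y ⊆ S) (n : ℤ) : rep Y n ≤ rep S n := by
  unfold rep
  apply card_le_card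
  intro x hx
  rw [mem_filter] at hx ⊢
  exact ⟨h hx.1, h hx.2⟩

theorem win_sub (S : Finset ℤ) (a t : ℕ) : win S a t ⊆ S := filter_subset _ _

/-- reflected translate -/
noncomputable def rf (L : Finset ℤ) (a : ℤ) : Finset ℤ := L.image (a - ·)

theorem mem_rf {L : Finset ℤ} {a x : ℤ} : x ∈ rf L a ↔ a - x ∈ L := by
  unfold rf
  rw [mem_image]
  constructor
  · rintro ⟨y, hy, rfl⟩; simpa using hy
  · intro h; exact ⟨a - x, h, by ring⟩

theorem card_rf (L : Finset ℤ) (a : ℤ) : (rf L a).card = L.card :=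
  card_image_of_injective _ sub_right_injective

theorem win_sum {S : Finset ℤ} {a t B : ℕ} {x y : ℤ} (hx : |x| ≤ B) (hy : |y| ≤ B) :
    3 * (win S a t).card ≤ t + 4 * B + rep (win S a t) x + rep (win S a t) y +
      rep (win S a t) (x + y) := by
  rw [abs_le] at hx hy
  have hsub : ∀ c : ℤ, -(2 * (B : ℤ)) ≤ c → c ≤ 2 * B →
      tr (win S a t) c ⊆ Icc ((a : ℤ) - t + 1 - 2 * B) ((a : ℤ) + 2 * B) := by
    intro c hc0 hc1 z hz
    rw [mem_tr, mem_win] at hz
    rw [mem_Icc]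
    omega
  have h1 := three_tr (hsub (x + y) (by omega) (by omega)) (hsub y (by omega) (by omega))
    (hsub 0 (by omega) (by omega))
  rw [sub_zero, sub_zero, add_sub_cancel_right] at h1
  have e2 : ((a : ℤ) + 2 * B + 1 - ((a : ℤ) - t + 1 - 2 * B)).toNat = t + 4 * B := by omega
  rw [e2] at h1
  omega

/-- popularity in windows -/
theorem pop_win {S : Finset ℤ} (hpos : ∀ s ∈ S, 0 < s) {E : ℕ}
    (hE2 : ∀ a ∈ S, (S.filter (fun s => a - s ∈ S)).card ≤ E) {a t u : ℕ} {a₁ a₂ : ℤ}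
    (h1 : a₁ ∈ win S a u) (h2 : a₂ ∈ win S a u) :
    2 * (win S a t).card + (lev S t).card ≤ t + u + 2 * E + rep (win S a t) (a₁ - a₂) := by
  have hb : ∀ b ∈ win S a u, rf (win S a t) b ⊆ Icc (1 - (u : ℤ)) t ∧
      (rf (win S a t) b ∩ lev S t).card ≤ E := by
    intro b hb
    rw [mem_win] at hb
    constructor
    · intro x hx
      rw [mem_rf, mem_win] at hx
      rw [mem_Icc]
      omega
    · refine le_trans (card_le_card ?_) (hE2 b hb.1)
      intro x hx
      rw [mem_inter, mem_rf, mem_win, mem_lev] at hx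
      rw [mem_filter]
      exact ⟨hx.2.1, hx.1.1⟩
  have hX : lev S t ⊆ Icc (1 - (u : ℤ)) t := by
    intro x hx
    rw [mem_lev] at hx
    have := hpos _ hx.1
    rw [mem_Icc]
    omega
  have h3 := card_three (hb a₁ h1).1 hX (hb a₂ h2).1
  have h4 : (rf (win S a t) a₁ ∩ rf (win S a t) a₂).card = rep (win S a t) (a₂ - a₁) := by
    unfold rep
    rw [← card_rf ((win S a t).filter (fun x => x + (a₂ - a₁) ∈ win S a t)) a₁]
    congr 1
    ext x
    rw [mem_inter, mem_rf, mem_rf, mem_rf, mem_filter]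
    have : a₁ - x + (a₂ - a₁) = a₂ - x := by ring
    rw [this]
  rw [← rep_neg, neg_sub] at h4
  have h5 := (hb a₁ h1).2
  have h6 := (hb a₂ h2).2
  rw [inter_comm] at h6
  rw [card_rf, card_rf, Int.card_Icc] at h3
  have e : ((t : ℤ) + 1 - (1 - u)).toNat = t + u := by omega
  rw [e] at h3
  omega

/-- if `n` is not a popular difference then `a' + n` has many representations -/
theorem fs_win {S : Finset ℤ} (hpos : ∀ s ∈ S, 0 < s) {E : ℕ}
    (hE2 : ∀ a ∈ S, (S.filter (fun s => a - s ∈ S)).card ≤ E) {a t u B : ℕ} {a' n : ℤ}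
    (h1 : a' ∈ win S a u) (hn : |n| ≤ B) :
    2 * (win S a t).card + (lev S t).card ≤ t + u + 2 * B + E + rep (win S a t) n +
      ((lev S t).filter (fun s => a' + n - s ∈ S)).card := by
  rw [abs_le] at hn
  rw [mem_win] at h1
  set U : Finset ℤ := Icc ((a : ℤ) - t - u - B + 1) ((a : ℤ) + B) with hU
  have hA : tr (win S a t) n ⊆ U := by
    intro x hx
    rw [mem_tr, mem_win] at hx
    rw [hU, mem_Icc]
    omega
  have hB : rf (lev S t) (a' + n) ⊆ U := by
    intro x hx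
    rw [mem_rf, mem_lev] at hx
    have := hpos _ hx.1
    rw [hU, mem_Icc]
    omega
  have hC : tr (win S a t) 0 ⊆ U := by
    intro x hx
    rw [mem_tr, mem_win] at hx
    rw [hU, mem_Icc]
    omega
  have h3 := card_three hA hB hC
  have h4 : (tr (win S a t) n ∩ rf (lev S t) (a' + n)).card ≤ E := by
    refine le_trans ?_ (hE2 a' h1.1)
    have : (tr (win S a t) n ∩ rf (lev S t) (a' + n)) ⊆
        rf (S.filter (fun s => a' - s ∈ S)) (a' + n) := by
      intro x hx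
      rw [mem_inter, mem_tr, mem_rf, mem_win, mem_lev] at hx
      rw [mem_rf, mem_filter]
      refine ⟨hx.2.1, ?_⟩
      have e : a' - (a' + n - x) = x - n := by ring
      rw [e]
      exact hx.1.1
    exact (card_le_card this).trans (card_rf _ _).le
  have h5 : (rf (lev S t) (a' + n) ∩ tr (win S a t) 0).card ≤
      ((lev S t).filter (fun s => a' + n - s ∈ S)).card := by
    have : (rf (lev S t) (a' + n) ∩ tr (win S a t) 0) ⊆
        rf ((lev S t).filter (fun s => a' + n - s ∈ S)) (a' + n) := by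
      intro x hx
      rw [mem_inter, mem_tr, mem_rf, mem_win] at hx
      rw [mem_rf, mem_filter]
      refine ⟨hx.1, ?_⟩
      have e : a' + n - (a' + n - x) = x - 0 := by ring
      rw [e]
      exact hx.2.1
    exact (card_le_card this).trans (card_rf _ _).le
  have h6 : (tr (win S a t) n ∩ tr (win S a t) 0).card = rep (win S a t) n := by
    rw [card_tr_inter, sub_zero]
  rw [card_tr, card_tr, card_rf, h6, hU, Int.card_Icc] at h3
  have e : ((a : ℤ) + B + 1 - ((a : ℤ) - t - u - B + 1)).toNat = t + u + 2 * B := by omega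
  rw [e] at h3
  omega

/-! ### Neighbourhoods -/

/-- `{w ∈ (a - t, a] : w - v ∈ S}` -/
noncomputable def nw (S : Finset ℤ) (a t : ℕ) (v : ℤ) : Finset ℤ :=
  (Ioc ((a : ℤ) - t) a).filter (fun w => w - v ∈ S)

/-- `{w ∈ (a - t, a] : y - w ∈ S}` -/
noncomputable def mw (S : Finset ℤ) (a t : ℕ) (y : ℤ) : Finset ℤ :=
  (Ioc ((a : ℤ) - t) a).filter (fun w => y - w ∈ S)

theorem mem_nw {S : Finset ℤ} {a t : ℕ} {v w : ℤ} :
    w ∈ nw S a t v ↔ ((a : ℤ) - t < w ∧ w ≤ a) ∧ w - v ∈ S := by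
  simp [nw]

theorem mem_mw {S : Finset ℤ} {a t : ℕ} {y w : ℤ} :
    w ∈ mw S a t y ↔ ((a : ℤ) - t < w ∧ w ≤ a) ∧ y - w ∈ S := by
  simp [mw]

theorem card_nw {S : Finset ℤ} {a t B : ℕ} {v : ℤ} (hv : 0 ≤ v) (hvB : v ≤ B) :
    (win S a t).card ≤ (nw S a t v).card + B := by
  have hsub : tr (win S a t) v ⊆ nw S a t v ∪ Ioc (a : ℤ) (a + B) := by
    intro w hw
    rw [mem_tr, mem_win] at hw
    rw [mem_union, mem_nw, mem_Ioc]
    by_cases h : w ≤ a
    · exact Or.inl ⟨⟨by omega, h⟩, hw.1⟩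
    · exact Or.inr ⟨by omega, by omega⟩
  have := (card_le_card hsub).trans (card_union_le _ _)
  rw [card_tr, Int.card_Ioc] at this
  omega

theorem card_mw {S : Finset ℤ} (hpos : ∀ s ∈ S, 0 < s) {a t u c : ℕ} {y : ℤ}
    (hy1 : (a : ℤ) - u < y) (hy2 : y ≤ a + c) :
    (lev S t).card ≤ (mw S a t y).card + u + c := by
  have hsub : rf (lev S t) y ⊆ mw S a t y ∪ (Ioc ((a : ℤ) - t - u) (a - t) ∪
      Ioc (a : ℤ) (a + c)) := by
    intro w hw
    rw [mem_rf, mem_lev] at hw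
    have := hpos _ hw.1
    rw [mem_union, mem_union, mem_mw, mem_Ioc, mem_Ioc]
    by_cases h : w ≤ a
    · by_cases h' : (a : ℤ) - t < w
      · exact Or.inl ⟨⟨h', h⟩, hw.1⟩
      · right; left; omega
    · right; right; omega
  have h1 := (card_le_card hsub).trans (card_union_le _ _)
  have h2 := card_union_le (Ioc ((a : ℤ) - t - u) (a - t)) (Ioc (a : ℤ) (a + c))
  rw [card_rf] at h1
  rw [Int.card_Ioc, Int.card_Ioc] at h2
  omega

theorem nw_mw {S : Finset ℤ} {E : ℕ}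
    (hE2 : ∀ a ∈ S, (S.filter (fun s => a - s ∈ S)).card ≤ E) {a t : ℕ} {v y : ℤ}
    (h : y - v ∈ S) : (nw S a t v ∩ mw S a t y).card ≤ E := by
  refine le_trans ?_ (hE2 _ h)
  have : nw S a t v ∩ mw S a t y ⊆ tr (S.filter (fun s => y - v - s ∈ S)) v := by
    intro w hw
    rw [mem_inter, mem_nw, mem_mw] at hw
    rw [mem_tr, mem_filter]
    refine ⟨hw.1.2, ?_⟩
    have e : y - v - (w - v) = y - w := by ring
    rw [e]
    exact hw.2.2
  exact (card_le_card this).trans (card_tr _ _).le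

theorem nw_nw {S : Finset ℤ} {a t : ℕ} {v z : ℤ} :
    (nw S a t v ∩ nw S a t z).card ≤ rep S (z - v) := by
  have : nw S a t v ∩ nw S a t z ⊆ tr S v ∩ tr S z := by
    intro w hw
    rw [mem_inter, mem_nw, mem_nw] at hw
    rw [mem_inter, mem_tr, mem_tr]
    exact ⟨hw.1.2, hw.2.2⟩
  refine (card_le_card this).trans ?_
  rw [card_tr_inter, ← rep_neg, neg_sub]

set_option maxHeartbeats 1000000 in
/-- The near period, window version. -/
theorem near_period2 {D m : ℕ} (hD : 100 ≤ D) (S : Finset ℤ) (hpos : ∀ s ∈ S, 0 < s) (E : ℕ)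
    (hE1 : ∀ s ∈ S, rep S s ≤ E) (hE2 : ∀ a ∈ S, (S.filter (fun s => a - s ∈ S)).card ≤ E)
    (α β : ℝ) (hαβ : 1 + 1 / (D : ℝ) ≤ 2 * α + β)
    (x₀ p₄ p₅ a u : ℕ) (hx₀ : 0 < x₀)
    (hm : (1 - 1 / (2 * (D : ℝ))) ^ m ≤ 1 / (200 * D))
    (hd5 : β * p₅ ≤ ((lev S p₅).card : ℝ)) (hda : α * p₅ ≤ ((win S a p₅).card : ℝ))
    (hr4 : 1000 * D * (2 ^ (m + 1) * x₀) ≤ p₄) (hu : u ≤ p₄)
    (hr5 : 1000 * D * p₄ ≤ p₅) (hE : 1000 * D * E ≤ p₅) (hmE : 200 * D * (m * E) ≤ p₅) :
    ∃ h : ℕ, x₀ ≤ h ∧ h ≤ 2 ^ (m + 1) * x₀ ∧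
      ∀ y ∈ win S a u,
        (((lev S p₄).filter (fun s => y - h - s ∈ S)).card : ℝ) ≤ 3 * p₄ / (10 * D) := by
  classical
  have hD0 : (0 : ℝ) < D := by exact_mod_cast (by omega : 0 < D)
  have hDr : (100 : ℝ) ≤ D := by exact_mod_cast hD
  have hpow : 0 < 2 ^ (m + 1) * x₀ := by positivity
  have ht4 : 0 < p₄ := lt_of_lt_of_le (by positivity) hr4
  have ht5 : 0 < p₅ := lt_of_lt_of_le (by positivity) hr5
  have ht4r : (0 : ℝ) < p₄ := by exact_mod_cast ht4
  have ht5r : (0 : ℝ) < p₅ := by exact_mod_cast ht5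
  have h45r : 1000 * (D : ℝ) * p₄ ≤ p₅ := by exact_mod_cast hr5
  set W : Finset ℤ := Ioc ((a : ℤ) - p₅) a with hW
  have hWc : W.card = p₅ := by rw [hW, Int.card_Ioc]; omega
  have hWn : W.Nonempty := by rw [← card_pos, hWc]; exact ht5
  set V := range (2 ^ (m + 1)) with hV
  set Z : Finset ℤ := Icc (0 : ℤ) (2 * p₄) with hZ
  have hZc : Z.card = 2 * p₄ + 1 := by rw [hZ, Int.card_Icc]; omega
  have hZr : (Z.card : ℝ) = 2 * p₄ + 1 := by rw [hZc]; push_cast; ring
  have hZpos : (0 : ℝ) < Z.card := by rw [hZr]; positivity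
  have hVc : (V.card : ℝ) = 2 ^ (m + 1) := by rw [hV, card_range]; push_cast; ring
  have hδ1 : 1 / (2 * (D : ℝ)) ≤ 1 := by rw [div_le_one (by positivity)]; linarith
  have hθm : (m : ℝ) * (E / p₅) ≤ 1 / (200 * D) := by
    rw [mul_div_assoc', div_le_div_iff₀ ht5r (by positivity)]
    have : 200 * (D : ℝ) * (m * E) ≤ p₅ := by exact_mod_cast hmE
    linarith
  obtain ⟨ω, hω⟩ := sample W V Z (fun i z => nw S a p₅ ((i : ℤ) * x₀) ∩ nw S a p₅ z)
    (fun i z => inter_subset_left.trans (filter_subset _ _)) m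
    (show (0 : ℝ) ≤ 1 / (2 * D) by positivity) hδ1 hm hθm (by positivity) hWn
  -- few faulty
  set F : ℕ → Finset ℤ := fun i => Z.filter (fun z =>
    Faulty (W.card : ℝ) (1 / (2 * D)) (E / p₅) ω (nw S a p₅ ((i : ℤ) * x₀) ∩ nw S a p₅ z)) with hF
  set bad := V.filter (fun i => 1 / (20 * (D : ℝ)) * Z.card < (F i).card) with hbad
  have hbadc : (bad.card : ℝ) ≤ V.card / 5 := by
    have h1 : ∑ i ∈ bad, (1 / (20 * (D : ℝ)) * Z.card) ≤ ∑ i ∈ V, ((F i).card : ℝ) := by
      calc ∑ i ∈ bad, (1 / (20 * (D : ℝ)) * Z.card) ≤ ∑ i ∈ bad, ((F i).card : ℝ) :=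
            sum_le_sum (fun i hi => (mem_filter.1 hi).2.le)
        _ ≤ _ := sum_le_sum_of_subset_of_nonneg (filter_subset _ _) (fun _ _ _ => by positivity)
    rw [sum_const, nsmul_eq_mul] at h1
    have h2 := h1.trans hω
    have h3 : (bad.card : ℝ) * (1 / (20 * (D : ℝ)) * Z.card) =
        (bad.card : ℝ) * (Z.card / (20 * D)) := by ring
    have h4 : 2 * (1 / (200 * (D : ℝ))) * V.card * Z.card =
        (V.card / 5 : ℝ) * (Z.card / (20 * D)) := by field_simp; ring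
    rw [h3, h4] at h2
    exact le_of_mul_le_mul_right h2 (by positivity)
  set good := V \ bad with hgood
  have hgoodc : (2 ^ m : ℕ) < good.card := by
    have h1 : good.card + bad.card = V.card := by
      rw [hgood]
      exact card_sdiff_add_card_eq_card (filter_subset _ _)
    have h2 : (good.card : ℝ) + bad.card = V.card := by exact_mod_cast h1
    have h3 : ((2 ^ m : ℕ) : ℝ) < good.card := by
      push_cast
      rw [hVc, pow_succ] at h2 hbadc
      have : (0 : ℝ) < 2 ^ m := by positivity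
      linarith
    exact_mod_cast h3
  obtain ⟨i, hi, i', hi', hne, htype⟩ := exists_ne_map_eq_of_card_lt_of_maps_to
    (s := good) (t := (univ : Finset (Finset (Fin m))))
    (f := fun i : ℕ => univ.filter (fun j : Fin m => ω j ∈ nw S a p₅ ((i : ℤ) * x₀)))
    (by rw [card_univ, Fintype.card_finset, Fintype.card_fin]; exact hgoodc)
    (fun _ _ => mem_univ _)
  wlog hlt : i < i' generalizing i i'
  · exact this i' hi' i hi hne.symm htype.symm (by omega)
  have hgd : ∀ i ∈ good, ((F i).card : ℝ) ≤ 1 / (20 * (D : ℝ)) * Z.card := by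
    intro i hi
    rw [hgood, mem_sdiff, hbad, mem_filter] at hi
    by_contra hcon
    exact hi.2 ⟨hi.1, not_le.1 hcon⟩
  have hi'V : i' < 2 ^ (m + 1) := by
    have := (mem_sdiff.1 hi').1
    rwa [hV, mem_range] at this
  refine ⟨(i' - i) * x₀, ?_, ?_, ?_⟩
  · exact Nat.le_mul_of_pos_left _ (by omega)
  · exact Nat.mul_le_mul_right _ (by omega)
  intro y hy
  rw [mem_win] at hy
  set v : ℤ := (i : ℤ) * x₀ with hv
  set v' : ℤ := (i' : ℤ) * x₀ with hv'
  have hvv' : v' = v + ((i' - i) * x₀ : ℕ) := by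
    rw [hv, hv']
    push_cast [Nat.cast_sub hlt.le]
    ring
  have hv0 : 0 ≤ v := by positivity
  have hvle : v ≤ v' := by
    rw [hvv']
    have : (0 : ℤ) ≤ ((i' - i) * x₀ : ℕ) := Int.natCast_nonneg _
    linarith
  have hvmax : v' ≤ (2 ^ (m + 1) * x₀ : ℕ) := by
    rw [hv']
    have : i' * x₀ ≤ 2 ^ (m + 1) * x₀ := Nat.mul_le_mul_right _ hi'V.le
    exact_mod_cast this
  have hx4' : (2 : ℤ) * (2 ^ (m + 1) * x₀ : ℕ) ≤ p₄ := by
    have : 2 * (2 ^ (m + 1) * x₀) ≤ p₄ := le_trans (Nat.mul_le_mul_right _ (by omega)) hr4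
    exact_mod_cast this
  have hv4 : 2 * v' ≤ p₄ := by linarith
  set E₁ : Finset ℤ := (lev S p₄).filter (fun s => y - ((i' - i) * x₀ : ℕ) - s ∈ S) with hE₁
  have hsub : E₁.image (fun s => v' + s) ⊆ F i ∪ F i' := by
    intro z hz
    rw [mem_image] at hz
    obtain ⟨s, hs, rfl⟩ := hz
    rw [hE₁, mem_filter, mem_lev] at hs
    have hs0 := hpos _ hs.1.1
    set z := v' + s with hz
    have hzZ : z ∈ Z := by
      rw [hZ, mem_Icc, hz]
      constructor <;> omega
    rw [mem_union]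
    by_contra hno
    push Not at hno
    have hnf : ¬ Faulty (W.card : ℝ) (1 / (2 * D)) (E / p₅) ω (nw S a p₅ v ∩ nw S a p₅ z) :=
      fun h => hno.1 (mem_filter.2 ⟨hzZ, h⟩)
    have hnf' : ¬ Faulty (W.card : ℝ) (1 / (2 * D)) (E / p₅) ω (nw S a p₅ v' ∩ nw S a p₅ z) :=
      fun h => hno.2 (mem_filter.2 ⟨hzZ, h⟩)
    -- small
    have hsmall : ((nw S a p₅ v' ∩ nw S a p₅ z).card : ℝ) ≤ E / p₅ * W.card := by
      rw [hWc, div_mul_cancel₀ _ ht5r.ne']
      have h1 := nw_nw (S := S) (a := a) (t := p₅) (v := v') (z := z)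
      rw [show z - v' = s by rw [hz]; ring] at h1
      exact_mod_cast h1.trans (hE1 s hs.1.1)
    -- big
    have hbig : 1 / (2 * (D : ℝ)) * W.card ≤ (nw S a p₅ v ∩ nw S a p₅ z).card := by
      rw [hWc]
      set Y : ℤ := v + y with hY
      have hYv : Y - v ∈ S := by rw [hY]; simpa using hy.1
      have hYz : Y - z ∈ S := by
        have : Y - z = y - ((i' - i) * x₀ : ℕ) - s := by rw [hY, hz, hvv']; ring
        rw [this]; exact hs.2
      have c1 := card_nw (S := S) (a := a) (t := p₅) (B := 2 * p₄) (v := v) hv0 (by push_cast; omega)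
      have c2 := card_mw (S := S) hpos (a := a) (t := p₅) (u := u) (c := p₄) (y := Y)
        (by omega) (by omega)
      have c3 := card_nw (S := S) (a := a) (t := p₅) (B := 2 * p₄) (v := z) (by omega)
        (by rw [hZ, mem_Icc] at hzZ; exact_mod_cast hzZ.2)
      have c4 := card_three (A := nw S a p₅ v) (B := mw S a p₅ Y) (C := nw S a p₅ z)
        (U := W) (filter_subset _ _) (filter_subset _ _) (filter_subset _ _)
      have c5 := nw_mw (S := S) hE2 (a := a) (t := p₅) (v := v) (y := Y) hYv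
      have c6 := nw_mw (S := S) hE2 (a := a) (t := p₅) (v := z) (y := Y) hYz
      rw [inter_comm] at c6
      rw [hWc] at c4
      have c9 : (2 * (win S a p₅).card + (lev S p₅).card : ℝ) ≤ p₅ + 6 * p₄ + 2 * E +
          (nw S a p₅ v ∩ nw S a p₅ z).card := by
        have : 2 * (win S a p₅).card + (lev S p₅).card ≤ p₅ + 6 * p₄ + 2 * E +
          (nw S a p₅ v ∩ nw S a p₅ z).card := by omega
        exact_mod_cast this
      have hEr : 1000 * (D : ℝ) * E ≤ p₅ := by exact_mod_cast hE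
      have e1 : (p₄ : ℝ) ≤ p₅ / D / 1000 := by
        rw [div_div, le_div_iff₀ (by positivity)]; linarith
      have e2 : (E : ℝ) ≤ p₅ / D / 1000 := by
        rw [div_div, le_div_iff₀ (by positivity)]; linarith
      have e3 : 1 / (2 * (D : ℝ)) * p₅ = p₅ / D / 2 := by field_simp
      have e4 : (0 : ℝ) ≤ p₅ / D := by positivity
      have e5 : (1 + 1 / (D : ℝ)) * p₅ ≤ (2 * α + β) * p₅ := by gcongr
      have e6 : (1 + 1 / (D : ℝ)) * p₅ = p₅ + p₅ / D := by ring
      have e7 : (2 * α + β) * (p₅ : ℝ) = 2 * (α * p₅) + β * p₅ := by ring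
      rw [e6, e7] at e5
      rw [e3]
      linarith
    unfold Faulty at hnf hnf'
    push Not at hnf hnf'
    obtain ⟨j, hj⟩ := hnf.1 hbig
    rw [mem_inter] at hj
    have hj1 : j ∈ univ.filter (fun j : Fin m => ω j ∈ nw S a p₅ ((i : ℤ) * x₀)) :=
      mem_filter.2 ⟨mem_univ _, hj.1⟩
    have htype' : univ.filter (fun j : Fin m => ω j ∈ nw S a p₅ ((i : ℤ) * x₀)) =
      univ.filter (fun j : Fin m => ω j ∈ nw S a p₅ ((i' : ℤ) * x₀)) := htype
    rw [htype', mem_filter] at hj1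
    exact hnf'.2 hsmall j (mem_inter.2 ⟨hj1.2, hj.2⟩)
  have h1 := (card_le_card hsub).trans (card_union_le _ _)
  rw [card_image_of_injective _ (add_right_injective _)] at h1
  have h2 : (E₁.card : ℝ) ≤ (F i).card + (F i').card := by exact_mod_cast h1
  have h3 := hgd i hi
  have h4 := hgd i' hi'
  have h5 : 1 / (20 * (D : ℝ)) * Z.card ≤ 3 * p₄ / (20 * D) := by
    rw [hZr]
    have : (1 : ℝ) ≤ p₄ := by exact_mod_cast ht4
    calc 1 / (20 * (D : ℝ)) * (2 * p₄ + 1) ≤ 1 / (20 * (D : ℝ)) * (3 * p₄) := by gcongr; linarith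
      _ = 3 * p₄ / (20 * D) := by ring
  have h6 : 3 * (p₄ : ℝ) / (10 * D) = 3 * p₄ / (20 * D) + 3 * p₄ / (20 * D) := by
    field_simp; ring
  rw [h6]
  linarith

end SF3
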